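import Mathlib

/-!
# Minimal ascent sequences for the decreasing pattern: basic facts
-/

namespace Pool.Agent.R543.MinAsc

/-- The number of ascents `σ_i < σ_{i+1}` of a sequence. -/
def asc : List ℕ → ℕ
  | [] => 0
  | [_] => 0
  | a :: b :: l => (if a < b then 1 else 0) + asc (b :: l)

/-- `s` is an ascent sequence: its first entry is `0`, and every later entry `x` is at most
`1 + asc p`, where `p` is the part of `s` before `x`. -/
def IsAscentSeq (s : List ℕ) : Prop :=
  (∃ t, s = 0 :: t) ∧ ∀ p x q, s = p ++ x :: q → p ≠ [] → x ≤ 1 + asc p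

/-- `s` and `t` are order-isomorphic. -/
def OrderIso (s t : List ℕ) : Prop :=
  s.length = t.length ∧
    ∀ i j : ℕ, ∀ (hi : i < s.length) (hj : j < s.length) (hi' : i < t.length) (hj' : j < t.length),
      ((s[i] < s[j] ↔ t[i] < t[j]) ∧ (s[i] = s[j] ↔ t[i] = t[j]))

/-- `σ` contains `τ`: some subsequence of `σ` is order-isomorphic to `τ`. -/
def Contains (σ τ : List ℕ) : Prop := ∃ s, s.Sublist σ ∧ OrderIso s τ

/-- The decreasing pattern `(k-1, k-2, …, 1, 0)`. -/
def delta (k : ℕ) : List ℕ := (List.range k).reverse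

/-- `σ` is a `δ_k`-minimal ascent sequence: it is an ascent sequence containing `δ_k`, and no
ascent sequence contained in `σ` and shorter than `σ` contains `δ_k`. -/
def IsMinimal (k : ℕ) (σ : List ℕ) : Prop :=
  IsAscentSeq σ ∧ Contains σ (delta k) ∧
    ∀ τ, IsAscentSeq τ → Contains σ τ → τ.length < σ.length → ¬ Contains τ (delta k)

/-! ### ascents -/

lemma asc_split (p : List ℕ) (x : ℕ) (r : List ℕ) :
    asc (p ++ x :: r) = asc (p ++ [x]) + asc (x :: r) := by
  induction p with
  | nil => simp [asc]
  | cons a p ih =>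
    cases p with
    | nil => simp [asc]
    | cons b p =>
      simp only [List.cons_append, asc] at ih ⊢
      rw [ih]; ring

lemma asc_snoc (p : List ℕ) (x y : ℕ) :
    asc (p ++ [x, y]) = asc (p ++ [x]) + (if x < y then 1 else 0) := by
  have := asc_split p x [y]
  simpa [asc] using this

lemma asc_snoc' (p : List ℕ) (x y : ℕ) :
    asc (p ++ [x] ++ [y]) = asc (p ++ [x]) + (if x < y then 1 else 0) := by
  have := asc_snoc p x y
  simpa using this

lemma asc_le_snoc (p : List ℕ) (y : ℕ) : asc p ≤ asc (p ++ [y]) := by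
  rcases List.eq_nil_or_concat p with rfl | ⟨p', x, rfl⟩
  · simp [asc]
  · rw [List.concat_eq_append, asc_snoc']; omega

lemma asc_le_append (p q : List ℕ) : asc p ≤ asc (p ++ q) := by
  induction q generalizing p with
  | nil => simp
  | cons y q ih =>
    have := ih (p ++ [y])
    have h2 := asc_le_snoc p y
    simp only [List.append_assoc, List.singleton_append] at this
    omega

lemma asc_mid (p : List ℕ) (x a y : ℕ) (q : List ℕ) :
    asc (p ++ x :: a :: y :: q) =
      asc (p ++ [x]) + ((if x < a then 1 else 0) + ((if a < y then 1 else 0) + asc (y :: q))) := by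
  rw [asc_split]; simp [asc]

lemma asc_mid' (p : List ℕ) (x y : ℕ) (q : List ℕ) :
    asc (p ++ x :: y :: q) = asc (p ++ [x]) + ((if x < y then 1 else 0) + asc (y :: q)) := by
  rw [asc_split]; simp [asc]

lemma asc_delete (p : List ℕ) (a : ℕ) (q : List ℕ) : asc (p ++ a :: q) ≤ asc (p ++ q) + 1 := by
  rcases List.eq_nil_or_concat p with rfl | ⟨p', x, rfl⟩
  · cases q with
    | nil => simp [asc]
    | cons y q => simp only [List.nil_append, asc]; split_ifs <;> omega
  · rw [List.concat_eq_append]
    cases q with
    | nil =>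
      simp only [List.append_nil]
      rw [asc_snoc']; split_ifs <;> omega
    | cons y q =>
      simp only [List.append_assoc, List.singleton_append]
      rw [asc_mid, asc_mid']
      split_ifs <;> omega

lemma asc_map (f : ℕ → ℕ) (w : List ℕ) (hf : ∀ x ∈ w, ∀ y ∈ w, x < y → f x < f y) :
    asc (w.map f) = asc w := by
  induction w with
  | nil => rfl
  | cons a w ih =>
    cases w with
    | nil => rfl
    | cons b w =>
      simp only [List.map_cons, asc]
      have h1 : asc ((b :: w).map f) = asc (b :: w) :=
        ih (fun x hx y hy => hf x (List.mem_cons_of_mem _ hx) y (List.mem_cons_of_mem _ hy))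
      simp only [List.map_cons] at h1
      rw [h1]
      have h2 : f a < f b ↔ a < b := by
        constructor
        · intro h
          by_contra hab
          rcases Nat.lt_or_ge b a with hba | hba
          · have := hf b (by simp) a (by simp) hba; omega
          · have : a = b := by omega
            subst this; omega
        · intro h; exact hf a (by simp) b (by simp) h
      by_cases hab : a < b
      · simp [hab, h2.mpr hab]
      · have : ¬ f a < f b := fun h => hab (h2.mp h)
        simp [hab, this]

/-! ### splitting appended lists -/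

lemma split_append {a b p q : List ℕ} {x : ℕ} (h : a ++ b = p ++ x :: q) :
    (∃ r, a = p ++ x :: r ∧ q = r ++ b) ∨ (∃ r, p = a ++ r ∧ b = r ++ x :: q) := by
  rcases List.append_eq_append_iff.mp h with ⟨a', h1, h2⟩ | ⟨c', h1, h2⟩
  · exact Or.inr ⟨a', h1, h2⟩
  · cases c' with
    | nil =>
      right
      refine ⟨[], by simpa using h1.symm, by simpa using h2.symm⟩
    | cons z c' =>
      left
      simp only [List.cons_append, List.cons.injEq] at h2
      obtain ⟨rfl, h2⟩ := h2
      exact ⟨c', h1, h2⟩

/-! ### order isomorphisms -/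

lemma lt_iff_of_strict {w : List ℕ} {f : ℕ → ℕ} (hf : ∀ x ∈ w, ∀ y ∈ w, x < y → f x < f y)
    {x y : ℕ} (hx : x ∈ w) (hy : y ∈ w) : (x < y ↔ f x < f y) ∧ (x = y ↔ f x = f y) := by
  rcases lt_trichotomy x y with h | h | h
  · have := hf x hx y hy h
    constructor <;> constructor <;> intro <;> omega
  · subst h; simp
  · have := hf y hy x hx h
    constructor <;> constructor <;> intro <;> omega

lemma orderIso_map (w : List ℕ) (f : ℕ → ℕ) (hf : ∀ x ∈ w, ∀ y ∈ w, x < y → f x < f y) :
    OrderIso w (w.map f) := by
  refine ⟨by simp, ?_⟩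
  intro i j hi hj hi' hj'
  have h1 := lt_iff_of_strict hf (List.getElem_mem hi) (List.getElem_mem hj)
  simpa using h1

lemma orderIso_delta (k : ℕ) (s : List ℕ) :
    OrderIso s (delta k) ↔ s.length = k ∧ s.Pairwise (· > ·) := by
  have hd : (delta k).length = k := by simp [delta]
  have hg : ∀ i (hi : i < (delta k).length), (delta k)[i] = k - 1 - i := by
    intro i hi
    simp only [delta, List.getElem_reverse, List.getElem_range, List.length_range]
  constructor
  · rintro ⟨h1, h2⟩
    refine ⟨by omega, ?_⟩
    rw [List.pairwise_iff_getElem]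
    intro i j hi hj hij
    have h3 := (h2 j i hj hi (by omega) (by omega)).1
    show s[j] < s[i]
    rw [h3, hg, hg]
    omega
  · rintro ⟨h1, h2⟩
    rw [List.pairwise_iff_getElem] at h2
    refine ⟨by omega, ?_⟩
    intro i j hi hj hi' hj'
    rw [hg, hg]
    rcases lt_trichotomy i j with h | h | h
    · have h3 : s[j] < s[i] := h2 i j hi hj h
      constructor <;> constructor <;> intro <;> omega
    · subst h; simp
    · have h3 : s[i] < s[j] := h2 j i hj hi h
      constructor <;> constructor <;> intro <;> omega

lemma contains_delta (k : ℕ) (σ : List ℕ) :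
    Contains σ (delta k) ↔ ∃ s : List ℕ, s.Sublist σ ∧ s.length = k ∧ s.Pairwise (· > ·) := by
  unfold Contains
  constructor
  · rintro ⟨s, h1, h2⟩
    exact ⟨s, h1, (orderIso_delta k s).mp h2⟩
  · rintro ⟨s, h1, h2⟩
    exact ⟨s, h1, (orderIso_delta k s).mpr h2⟩

/-- The minimality principle. -/
lemma IsMinimal.le_length {k : ℕ} {σ : List ℕ} (h : IsMinimal k σ) {w : List ℕ} (f : ℕ → ℕ)
    (hw : w.Sublist σ) (hf : ∀ x ∈ w, ∀ y ∈ w, x < y → f x < f y) (ha : IsAscentSeq (w.map f))
    {s : List ℕ} (hs : s.Sublist w) (hlen : s.length = k) (hdec : s.Pairwise (· > ·)) :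
    σ.length ≤ w.length := by
  by_contra hlt
  push Not at hlt
  refine h.2.2 (w.map f) ha ⟨w, hw, orderIso_map w f hf⟩ (by simpa using hlt) ?_
  rw [contains_delta]
  refine ⟨s.map f, hs.map f, by simpa using hlen, ?_⟩
  rw [List.pairwise_map]
  refine hdec.imp_of_mem ?_
  intro a b ha hb hab
  exact hf b (hs.subset hb) a (hs.subset ha) hab

lemma IsMinimal.le_length_id {k : ℕ} {σ : List ℕ} (h : IsMinimal k σ) {w : List ℕ}
    (hw : w.Sublist σ) (ha : IsAscentSeq w)
    {s : List ℕ} (hs : s.Sublist w) (hlen : s.length = k) (hdec : s.Pairwise (· > ·)) :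
    σ.length ≤ w.length := by
  refine h.le_length (fun x => x) hw (fun x _ y _ h => h) (by simpa using ha) hs hlen hdec

/-- Replacing the part after `c` by entries `≤ c`. -/
lemma IsAscentSeq.replace_tail {π ρ cs : List ℕ} {c : ℕ} (h : IsAscentSeq (π ++ c :: ρ))
    (hπ : π ≠ []) (hcs : ∀ x ∈ cs, x ≤ c) : IsAscentSeq (π ++ c :: cs) := by
  obtain ⟨⟨t, ht⟩, h2⟩ := h
  constructor
  · cases π with
    | nil => exact absurd rfl hπ
    | cons a π =>
      simp only [List.cons_append, List.cons.injEq] at ht ⊢
      exact ⟨π ++ c :: cs, ht.1, rfl⟩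
  · intro p x q hpq hp
    rcases split_append hpq with ⟨r, h3, h4⟩ | ⟨r, h3, h4⟩
    · refine h2 p x (r ++ c :: ρ) ?_ hp
      rw [h3]; simp
    · have hc : c ≤ 1 + asc π := h2 π c ρ rfl hπ
      have hx : x ≤ c := by
        cases r with
        | nil =>
          simp only [List.nil_append, List.cons.injEq] at h4
          exact le_of_eq h4.1.symm
        | cons z r =>
          simp only [List.cons_append, List.cons.injEq] at h4
          apply hcs
          rw [h4.2]; simp
      have := asc_le_append π r
      rw [← h3] at this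
      omega

end Pool.Agent.R543.MinAsc
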