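import Mathlib
import Pool.Agent.R543.MinAsc.Basic

/-!
# Structure of minimal ascent sequences for the decreasing pattern
-/

namespace Pool.Agent.R543.MinAsc

/-- `π ++ c :: cs` is `δ_k`-minimal and `c :: cs` is its final occurrence of `δ_k`. -/
structure Std (k : ℕ) (π : List ℕ) (c : ℕ) (cs : List ℕ) : Prop where
  hmin : IsMinimal k (π ++ c :: cs)
  hdec : (c :: cs).Pairwise (· > ·)
  hlen : (c :: cs).length = k
  hk : 3 ≤ k

lemma exists_std {k : ℕ} (hk : 3 ≤ k) {σ : List ℕ} (h : IsMinimal k σ) :
    ∃ π c cs, σ = π ++ c :: cs ∧ Std k π c cs := by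
  obtain ⟨s, hs, hlen, hdec⟩ := (contains_delta k σ).mp h.2.1
  cases s with
  | nil => simp at hlen; omega
  | cons c cs =>
    rw [List.cons_sublist_iff] at hs
    obtain ⟨r₁, r₂, h1, h2, h3⟩ := hs
    obtain ⟨π, t, rfl⟩ := List.append_of_mem h2
    have hσ : σ = π ++ c :: (t ++ r₂) := by rw [h1]; simp
    have hlt : ∀ x ∈ cs, x < c := by
      have := List.pairwise_cons.mp hdec
      exact fun x hx => this.1 x hx
    have hπ : π ≠ [] := by
      rintro rfl
      obtain ⟨⟨u, hu⟩, _⟩ := h.1
      rw [hσ] at hu
      simp only [List.nil_append, List.cons.injEq] at hu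
      have hc : c = 0 := hu.1
      cases cs with
      | nil => simp at hlen; omega
      | cons d ds => have := hlt d (by simp); omega
    have hasc : IsAscentSeq (π ++ c :: cs) := by
      refine IsAscentSeq.replace_tail (ρ := t ++ r₂) ?_ hπ (fun x hx => (hlt x hx).le)
      rw [← hσ]; exact h.1
    have hsub : (π ++ c :: cs).Sublist σ := by
      rw [hσ]
      refine List.Sublist.append (List.Sublist.refl _) ?_
      refine List.Sublist.cons_cons c ?_
      exact h3.trans (List.sublist_append_right _ _)
    have hle := h.le_length_id hsub hasc (s := c :: cs) (List.sublist_append_right _ _) hlen hdec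
    have heq : π ++ c :: cs = σ := hsub.eq_of_length_le hle
    refine ⟨π, c, cs, heq.symm, ?_, hdec, hlen, hk⟩
    rw [heq]; exact h

namespace Std

variable {k : ℕ} {π : List ℕ} {c : ℕ} {cs : List ℕ}

lemma lt_c (h : Std k π c cs) {x : ℕ} (hx : x ∈ cs) : x < c :=
  (List.pairwise_cons.mp h.hdec).1 x hx

lemma length_cs (h : Std k π c cs) : cs.length + 1 = k := by
  simpa using h.hlen

/-- All entries of `π` are at most the second entry of the occurrence. -/
lemma le_c2 (h : Std k π c cs) {d : ℕ} {ds : List ℕ} (hcs : cs = d :: ds) {x : ℕ} (hx : x ∈ π) :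
    x ≤ d := by
  by_contra hxd
  push Not at hxd
  obtain ⟨p, q, rfl⟩ := List.append_of_mem hx
  have hdec := List.pairwise_cons.mp h.hdec
  have hlt : ∀ y ∈ cs, y < x := by
    intro y hy
    rw [hcs] at hy hdec
    have h2 := List.pairwise_cons.mp hdec.2
    rcases List.mem_cons.mp hy with rfl | hy
    · exact hxd
    · have := h2.1 y hy; omega
  have hp : p ≠ [] := by
    rintro rfl
    obtain ⟨⟨t, ht⟩, _⟩ := h.hmin.1
    simp only [List.nil_append, List.cons_append, List.cons.injEq] at ht
    omega
  have hasc : IsAscentSeq (p ++ x :: cs) := by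
    refine IsAscentSeq.replace_tail (ρ := q ++ c :: cs) ?_ hp (fun y hy => (hlt y hy).le)
    have := h.hmin.1
    simpa using this
  have hsub : (p ++ x :: cs).Sublist ((p ++ x :: q) ++ c :: cs) := by
    rw [List.append_assoc, List.cons_append]
    refine List.Sublist.append (List.Sublist.refl _) (List.Sublist.cons_cons x ?_)
    exact (List.sublist_cons_self c cs).trans (List.sublist_append_right _ _)
  have hle := h.hmin.le_length_id hsub hasc (s := x :: cs) (List.sublist_append_right _ _)
    (by simpa using h.length_cs)
    (List.pairwise_cons.mpr ⟨fun y hy => hlt y hy, hdec.2⟩)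
  simp at hle
  omega

lemma exists_c2 (h : Std k π c cs) : ∃ d ds, cs = d :: ds := by
  have := h.length_cs
  have hk := h.hk
  cases cs with
  | nil => simp at this; omega
  | cons d ds => exact ⟨d, ds, rfl⟩

lemma lt_c' (h : Std k π c cs) {x : ℕ} (hx : x ∈ π) : x < c := by
  obtain ⟨d, ds, hcs⟩ := h.exists_c2
  have h1 := h.le_c2 hcs hx
  have h2 : d < c := h.lt_c (by rw [hcs]; simp)
  omega

/-- Lengths of sublists that keep the final occurrence. -/
lemma no_shorter (h : Std k π c cs) {π' : List ℕ} (f : ℕ → ℕ) (hsub : π'.Sublist π)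
    (hf : ∀ x ∈ π' ++ c :: cs, ∀ y ∈ π' ++ c :: cs, x < y → f x < f y)
    (ha : IsAscentSeq ((π' ++ c :: cs).map f)) : π.length ≤ π'.length := by
  have hle := h.hmin.le_length f (w := π' ++ c :: cs)
    (List.Sublist.append hsub (List.Sublist.refl _)) hf ha (s := c :: cs)
    (List.sublist_append_right _ _) h.hlen h.hdec
  simp at hle
  omega

lemma no_shorter_id (h : Std k π c cs) {π' : List ℕ} (hsub : π'.Sublist π)
    (ha : IsAscentSeq (π' ++ c :: cs)) : π.length ≤ π'.length :=
  h.no_shorter (fun x => x) hsub (fun _ _ _ _ h => h) (by simpa using ha)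

lemma c_le (h : Std k π c cs) (hπ : π ≠ []) : c ≤ 1 + asc π :=
  h.hmin.1.2 π c cs rfl hπ

lemma entry_le (h : Std k π c cs) {p q : List ℕ} {x : ℕ} (hp : π = p ++ x :: q) (hne : p ≠ []) :
    x ≤ 1 + asc p := by
  refine h.hmin.1.2 p x (q ++ c :: cs) ?_ hne
  rw [hp]; simp

lemma c_ge (h : Std k π c cs) : k ≤ c + 1 := by
  -- a strictly decreasing list of length `k` starts with an entry at least `k - 1`
  have key : ∀ (l : List ℕ) (a : ℕ), (a :: l).Pairwise (· > ·) → l.length ≤ a := by
    intro l
    induction l with
    | nil => intro a _; simp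
    | cons b l ih =>
      intro a hab
      have h1 := List.pairwise_cons.mp hab
      have h2 := ih b h1.2
      have h3 : a > b := h1.1 b (by simp)
      simp; omega
  have := key cs c h.hdec
  have := h.length_cs
  omega

lemma pi_ne_nil (h : Std k π c cs) : π ≠ [] := by
  rintro rfl
  obtain ⟨⟨t, ht⟩, _⟩ := h.hmin.1
  simp only [List.nil_append, List.cons.injEq] at ht
  have := h.c_ge
  have := h.hk
  omega

lemma head_zero (h : Std k π c cs) : ∃ t, π = 0 :: t := by
  obtain ⟨⟨t, ht⟩, _⟩ := h.hmin.1
  cases π with
  | nil => exact absurd rfl h.pi_ne_nil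
  | cons a π =>
    simp only [List.cons_append, List.cons.injEq] at ht
    exact ⟨π, by rw [ht.1]⟩

lemma two_le_length (h : Std k π c cs) : 2 ≤ π.length := by
  obtain ⟨t, ht⟩ := h.head_zero
  cases t with
  | nil =>
    have h1 := h.c_le h.pi_ne_nil
    rw [ht] at h1
    simp [asc] at h1
    have := h.c_ge
    have := h.hk
    omega
  | cons b t => rw [ht]; simp

/-- Lemma A: after a weak descent `x ≥ a` in `π` there is a further entry `y` of `π`, and
`a < y ≤ x`. -/
lemma after_descent (h : Std k π c cs) {p q : List ℕ} {x a : ℕ} (hp : π = p ++ x :: a :: q)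
    (hxa : a ≤ x) : ∃ y q', q = y :: q' ∧ a < y ∧ y ≤ x := by
  -- the next entry of `σ`
  by_contra hcon
  push Not at hcon
  have hx : x ∈ π := by rw [hp]; simp
  have hlt := h.lt_c' hx
  -- first entry of `q ++ c :: cs`
  obtain ⟨y, r, hyr⟩ : ∃ y r, q ++ c :: cs = y :: r := by
    cases q with
    | nil => exact ⟨c, cs, rfl⟩
    | cons y q => exact ⟨y, q ++ c :: cs, rfl⟩
  have hy : a < y → x < y := by
    intro hay
    cases q with
    | nil =>
      simp only [List.nil_append, List.cons.injEq] at hyr
      rw [← hyr.1]; exact hlt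
    | cons z q =>
      simp only [List.cons_append, List.cons.injEq] at hyr
      have := hcon z q rfl (by rw [hyr.1]; exact hay)
      rw [← hyr.1]; exact this
  have hσ : π ++ c :: cs = p ++ x :: a :: y :: r := by
    rw [hp, List.append_assoc, List.cons_append, List.cons_append, hyr]
  have hnew : (p ++ x :: q) ++ c :: cs = p ++ x :: y :: r := by
    rw [List.append_assoc, List.cons_append, hyr]
  have hA := h.hmin.1
  rw [hσ] at hA
  have ha : IsAscentSeq ((p ++ x :: q) ++ c :: cs) := by
    rw [hnew]
    constructor
    · obtain ⟨⟨t, ht⟩, _⟩ := hA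
      cases p with
      | nil =>
        simp only [List.nil_append, List.cons.injEq] at ht ⊢
        exact ⟨y :: r, ht.1, rfl⟩
      | cons b p =>
        simp only [List.cons_append, List.cons.injEq] at ht ⊢
        exact ⟨p ++ x :: y :: r, ht.1, rfl⟩
    · intro u z v huv hu
      have hbase : ∀ u v z, p ++ x :: y :: r = u ++ z :: v → u ≠ [] → z ≤ 1 + asc u := by
        intro u v z huv hu
        have huv' : (p ++ [x]) ++ (y :: r) = u ++ z :: v := by simpa using huv
        rcases split_append huv' with ⟨s, h1, h2⟩ | ⟨s, h1, h2⟩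
        · -- inside the common prefix
          refine hA.2 u z (s ++ a :: y :: r) ?_ hu
          have : p ++ x :: a :: y :: r = (p ++ [x]) ++ a :: y :: r := by simp
          rw [this, h1]; simp
        · -- after `x`
          have h3 : p ++ x :: a :: y :: r = (p ++ x :: a :: s) ++ z :: v := by
            rw [h2]; simp
          have h4 : z ≤ 1 + asc (p ++ x :: a :: s) := hA.2 _ _ _ h3 (by simp)
          rw [h1]
          cases s with
          | nil =>
            rw [asc_snoc] at h4
            have : ¬ x < a := by omega
            simp only [this, if_false, add_zero] at h4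
            simpa using h4
          | cons s0 s =>
            simp only [List.cons_append, List.cons.injEq] at h2
            obtain ⟨rfl, h2⟩ := h2
            rw [asc_mid] at h4
            have h5 : (p ++ [x]) ++ y :: s = p ++ x :: y :: s := by simp
            rw [h5, asc_mid']
            have hxa' : ¬ x < a := by omega
            by_cases hay : a < y
            · have := hy hay
              simp only [hxa', hay, this, if_true, if_false] at h4 ⊢
              omega
            · simp only [hxa', hay, if_false] at h4
              split_ifs <;> omega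
      exact hbase u v z huv hu
  have hsub : (p ++ x :: q).Sublist π := by
    rw [hp]
    exact List.Sublist.append (List.Sublist.refl _)
      (List.Sublist.cons_cons x (List.sublist_cons_self a q))
  have := h.no_shorter_id hsub ha
  rw [hp] at this
  simp at this

/-- Lemma A': after an ascent `x < a` in `π`, the next entry `y` of `π` satisfies `a < y` or
`y ≤ x`. -/
lemma after_ascent (h : Std k π c cs) {p q : List ℕ} {x a y : ℕ}
    (hp : π = p ++ x :: a :: y :: q) (hxa : x < a) : a < y ∨ y ≤ x := by
  by_contra hcon
  push Not at hcon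
  obtain ⟨hya, hxy⟩ := hcon
  have hσ : π ++ c :: cs = p ++ x :: a :: y :: (q ++ c :: cs) := by rw [hp]; simp
  have hnew : (p ++ x :: y :: q) ++ c :: cs = p ++ x :: y :: (q ++ c :: cs) := by simp
  have hA := h.hmin.1
  rw [hσ] at hA
  have hale : a ≤ 1 + asc (p ++ [x]) := by
    refine hA.2 (p ++ [x]) a (y :: (q ++ c :: cs)) (by simp) (by simp)
  have ha : IsAscentSeq ((p ++ x :: y :: q) ++ c :: cs) := by
    rw [hnew]
    constructor
    · obtain ⟨⟨t, ht⟩, _⟩ := hA
      cases p with
      | nil =>
        simp only [List.nil_append, List.cons.injEq] at ht ⊢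
        exact ⟨y :: (q ++ c :: cs), ht.1, rfl⟩
      | cons b p =>
        simp only [List.cons_append, List.cons.injEq] at ht ⊢
        exact ⟨p ++ x :: y :: (q ++ c :: cs), ht.1, rfl⟩
    · intro u z v huv hu
      have huv' : (p ++ [x]) ++ (y :: (q ++ c :: cs)) = u ++ z :: v := by simpa using huv
      rcases split_append huv' with ⟨s, h1, h2⟩ | ⟨s, h1, h2⟩
      · refine hA.2 u z (s ++ a :: y :: (q ++ c :: cs)) ?_ hu
        have : p ++ x :: a :: y :: (q ++ c :: cs) = (p ++ [x]) ++ a :: y :: (q ++ c :: cs) := by
          simp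
        rw [this, h1]; simp
      · have h3 : p ++ x :: a :: y :: (q ++ c :: cs) = (p ++ x :: a :: s) ++ z :: v := by
          rw [h2]; simp
        have h4 : z ≤ 1 + asc (p ++ x :: a :: s) := hA.2 _ _ _ h3 (by simp)
        rw [h1]
        cases s with
        | nil =>
          simp only [List.nil_append, List.cons.injEq] at h2
          have : y = z := h2.1
          simp only [List.append_nil]
          omega
        | cons s0 s =>
          simp only [List.cons_append, List.cons.injEq] at h2
          obtain ⟨rfl, h2⟩ := h2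
          rw [asc_mid] at h4
          have h5 : (p ++ [x]) ++ y :: s = p ++ x :: y :: s := by simp
          rw [h5, asc_mid']
          have h6 : ¬ a < y := by omega
          simp only [hxa, h6, hxy, if_true, if_false] at h4 ⊢
          omega
  have hsub : (p ++ x :: y :: q).Sublist π := by
    rw [hp]
    exact List.Sublist.append (List.Sublist.refl _)
      (List.Sublist.cons_cons x (List.sublist_cons_self a (y :: q)))
  have := h.no_shorter_id hsub ha
  rw [hp] at this
  simp at this

end Std

end Pool.Agent.R543.MinAsc
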