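import Mathlib
import Pool.Agent.R543.MinAsc.Std

/-!
# Multiplicities and the number of letters
-/

namespace Pool.Agent.R543.MinAsc

namespace Std

variable {k : ℕ} {π : List ℕ} {c : ℕ} {cs : List ℕ}

/-- Lemma B: an entry of `π` that is not an entry of `cs` occurs at least twice in `π`. -/
lemma two_le_count (h : Std k π c cs) {a : ℕ} (ha : a ∈ π) (hacs : a ∉ cs) :
    2 ≤ π.count a := by
  by_contra hcnt
  push Not at hcnt
  obtain ⟨p, q, hpq⟩ := List.append_of_mem ha
  have hcount : p.count a = 0 ∧ q.count a = 0 := by
    rw [hpq, List.count_append, List.count_cons_self] at hcnt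
    omega
  have hap : a ∉ p := List.count_eq_zero.mp hcount.1
  have haq : a ∉ q := List.count_eq_zero.mp hcount.2
  have hac : a < c := h.lt_c' ha
  set f : ℕ → ℕ := fun z => if a < z then z - 1 else z with hf
  have hsub : (p ++ q).Sublist π := by
    rw [hpq]
    exact List.Sublist.append (List.Sublist.refl _) (List.sublist_cons_self a q)
  have hne : ∀ x ∈ (p ++ q) ++ c :: cs, x ≠ a := by
    rintro x hx rfl
    simp only [List.mem_append, List.mem_cons] at hx
    rcases hx with (hx | hx) | hx | hx
    · exact hap hx
    · exact haq hx
    · omega
    · exact hacs hx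
  have hmono : ∀ x ∈ (p ++ q) ++ c :: cs, ∀ y ∈ (p ++ q) ++ c :: cs, x < y → f x < f y := by
    intro x hx y hy hxy
    have h1 := hne x hx
    have h2 := hne y hy
    simp only [hf]
    split_ifs <;> omega
  have hA := h.hmin.1
  have hσ : π ++ c :: cs = p ++ a :: (q ++ c :: cs) := by rw [hpq]; simp
  rw [hσ] at hA
  have hascn : IsAscentSeq (((p ++ q) ++ c :: cs).map f) := by
    constructor
    · cases p with
      | nil =>
        -- `a = 0`
        obtain ⟨⟨t, ht⟩, h2⟩ := hA
        simp only [List.nil_append, List.cons.injEq] at ht
        have ha0 : a = 0 := ht.1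
        obtain ⟨y, r, hyr⟩ : ∃ y r, q ++ c :: cs = y :: r := by
          cases q with
          | nil => exact ⟨c, cs, rfl⟩
          | cons y q => exact ⟨y, q ++ c :: cs, rfl⟩
        have hy1 : y ≤ 1 + asc [a] := by
          refine h2 [a] y r ?_ (by simp)
          simp only [List.nil_append, List.singleton_append, List.cons.injEq, true_and]
          exact hyr
        have hy0 : y ≠ a := by
          apply hne
          simp only [List.nil_append]
          rw [hyr]; simp
        simp only [asc, add_zero] at hy1
        refine ⟨r.map f, ?_⟩
        simp only [List.nil_append]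
        rw [hyr, List.map_cons]
        have : f y = 0 := by simp only [hf]; split_ifs <;> omega
        rw [this]
      | cons b p =>
        obtain ⟨⟨t, ht⟩, h2⟩ := hA
        simp only [List.cons_append, List.cons.injEq] at ht
        have hb : b = 0 := ht.1
        refine ⟨(p ++ q ++ c :: cs).map f, ?_⟩
        simp only [List.cons_append, List.map_cons, List.cons.injEq]
        refine ⟨?_, trivial⟩
        simp only [hf, hb]
        simp
    · intro u' z' v' huv hu
      -- pull back along `map f`
      rw [List.map_eq_append_iff] at huv
      obtain ⟨u, w2, h1, h2, h3⟩ := huv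
      rw [List.map_eq_cons_iff] at h3
      obtain ⟨z, v, h4, h5, h6⟩ := h3
      subst h4
      have hune : u ≠ [] := by rintro rfl; apply hu; rw [← h2]; rfl
      have hascu : asc u' = asc u := by
        rw [← h2]
        apply asc_map
        intro x hx y hy hxy
        refine hmono x ?_ y ?_ hxy <;> (rw [h1]; simp [*])
      have hza : z ≠ a := hne z (by rw [h1]; simp)
      rw [hascu, ← h5]
      have h1' : p ++ (q ++ c :: cs) = u ++ z :: v := by rw [← List.append_assoc]; exact h1
      rcases split_append h1' with ⟨s, h7, h8⟩ | ⟨s, h7, h8⟩
      · -- inside `p`
        have h9 : z ≤ 1 + asc u := by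
          refine hA.2 u z (s ++ a :: (q ++ c :: cs)) ?_ hune
          rw [h7]; simp
        have : f z ≤ z := by simp only [hf]; split_ifs <;> omega
        omega
      · -- after `p`
        have h9 : z ≤ 1 + asc (p ++ a :: s) := by
          refine hA.2 (p ++ a :: s) z v ?_ (by simp)
          rw [h8]; simp
        have h10 := asc_delete p a s
        rw [h7]
        rcases Nat.lt_or_ge a z with haz | haz
        · have : f z = z - 1 := by simp only [hf, haz, if_true]
          omega
        · have hfz : f z = z := by simp only [hf]; split_ifs <;> omega
          rw [hfz]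
          have hzlt : z < a := by omega
          have hpne : p ≠ [] := by
            rintro rfl
            obtain ⟨⟨t, ht⟩, _⟩ := hA
            simp only [List.nil_append, List.cons.injEq] at ht
            omega
          have h11 : a ≤ 1 + asc p := hA.2 p a (q ++ c :: cs) rfl hpne
          have h12 := asc_le_append p s
          omega
  have := h.no_shorter f hsub hmono hascn
  rw [hpq] at this
  simp at this

/-- Lemma D: removing the last entry of `π` must destroy the bound for `c`. -/
lemma asc_dropLast_le (h : Std k π c cs) {π' : List ℕ} {e : ℕ} (hp : π = π' ++ [e])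
    (hne : π' ≠ []) : asc π' + 2 ≤ (π'.toFinset ∪ cs.toFinset).card := by
  by_contra hcon
  push Not at hcon
  set w : List ℕ := π' ++ c :: cs with hw
  set f : ℕ → ℕ := fun x => (w.toFinset.filter (fun y => y < x)).card with hf
  have hfle : ∀ x, f x ≤ x := by
    intro x
    simp only [hf]
    calc (w.toFinset.filter (fun y => y < x)).card ≤ (Finset.range x).card := by
          apply Finset.card_le_card
          intro y hy
          simp only [Finset.mem_filter] at hy
          exact Finset.mem_range.mpr hy.2
      _ = x := Finset.card_range x
  have hmono : ∀ x ∈ w, ∀ y ∈ w, x < y → f x < f y := by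
    intro x hx y hy hxy
    simp only [hf]
    apply Finset.card_lt_card
    rw [Finset.ssubset_iff_of_subset]
    · refine ⟨x, ?_, ?_⟩
      · simp [hx, hxy]
      · simp
    · intro z hz
      simp only [Finset.mem_filter] at hz ⊢
      exact ⟨hz.1, by omega⟩
  have hfc : f c ≤ 1 + asc π' := by
    have : f c ≤ (π'.toFinset ∪ cs.toFinset).card := by
      simp only [hf]
      apply Finset.card_le_card
      intro y hy
      simp only [Finset.mem_filter, hw, List.toFinset_append, List.toFinset_cons, Finset.mem_union,
        Finset.mem_insert, List.mem_toFinset] at hy ⊢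
      rcases hy with ⟨hy | hy | hy, hyc⟩
      · exact Or.inl hy
      · omega
      · exact Or.inr hy
    omega
  have hsub : π'.Sublist π := by rw [hp]; exact List.sublist_append_left _ _
  have hA := h.hmin.1
  have hascn : IsAscentSeq (w.map f) := by
    constructor
    · obtain ⟨t, ht⟩ := h.head_zero
      cases π' with
      | nil => exact absurd rfl hne
      | cons b π' =>
        rw [hp] at ht
        simp only [List.cons_append, List.cons.injEq] at ht
        refine ⟨(π' ++ c :: cs).map f, ?_⟩
        have hb : f b = 0 := by
          have := hfle b
          omega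
        rw [hw]
        simp only [List.cons_append, List.map_cons, hb]
    · intro u' z' v' huv hu
      rw [List.map_eq_append_iff] at huv
      obtain ⟨u, w2, h1, h2, h3⟩ := huv
      rw [List.map_eq_cons_iff] at h3
      obtain ⟨z, v, h4, h5, h6⟩ := h3
      subst h4
      have hune : u ≠ [] := by rintro rfl; apply hu; rw [← h2]; rfl
      have hascu : asc u' = asc u := by
        rw [← h2]
        apply asc_map
        intro x hx y hy hxy
        refine hmono x ?_ y ?_ hxy <;> (rw [h1]; simp [*])
      rw [hascu, ← h5]
      rw [hw] at h1
      rcases split_append h1 with ⟨s, h7, h8⟩ | ⟨s, h7, h8⟩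
      · have h9 : z ≤ 1 + asc u := by
          refine h.entry_le (p := u) (q := s ++ [e]) (x := z) ?_ hune
          rw [hp, h7]; simp
        have := hfle z
        omega
      · have hzc : f z ≤ f c := by
          cases s with
          | nil =>
            simp only [List.nil_append, List.cons.injEq] at h8
            rw [h8.1]
          | cons s0 s =>
            simp only [List.cons_append, List.cons.injEq] at h8
            have hz : z ∈ cs := by rw [h8.2]; simp
            have hlt := h.lt_c hz
            have := hmono z (by rw [hw]; simp [hz]) c (by rw [hw]; simp) hlt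
            omega
        have h12 := asc_le_append π' s
        rw [h7]
        omega
  have := h.no_shorter (π' := π') f hsub hmono hascn
  rw [hp] at this
  simp at this

end Std

end Pool.Agent.R543.MinAsc
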