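import Mathlib
import Pool.Agent.R543.MinAsc.Count

/-!
# The upper bound `2 k^2 - k`
-/

namespace Pool.Agent.R543.MinAsc

/-- `X τ = ∑ over letters of (multiplicity - 2)`. -/
def X (τ : List ℕ) : ℕ := ∑ a ∈ τ.toFinset, (τ.count a - 2)

lemma length_le (τ : List ℕ) : τ.length ≤ 2 * τ.toFinset.card + X τ := by
  have h1 : τ.length = ∑ a ∈ τ.toFinset, τ.count a := (List.sum_toFinset_count_eq_length τ).symm
  rw [h1, X]
  have h2 : 2 * τ.toFinset.card = ∑ a ∈ τ.toFinset, 2 := by simp [mul_comm]
  rw [h2, ← Finset.sum_add_distrib]
  apply Finset.sum_le_sum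
  intro a _
  omega

lemma X_le_append (τ : List ℕ) (y : ℕ) : X τ ≤ X (τ ++ [y]) := by
  unfold X
  have hsub : τ.toFinset ⊆ (τ ++ [y]).toFinset := by
    intro a ha
    simp only [List.toFinset_append, Finset.mem_union]
    exact Or.inl ha
  calc ∑ a ∈ τ.toFinset, (τ.count a - 2) ≤ ∑ a ∈ τ.toFinset, ((τ ++ [y]).count a - 2) := by
        apply Finset.sum_le_sum
        intro a _
        have : τ.count a ≤ (τ ++ [y]).count a := by
          rw [List.count_append]; omega
        omega
    _ ≤ ∑ a ∈ (τ ++ [y]).toFinset, ((τ ++ [y]).count a - 2) :=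
        Finset.sum_le_sum_of_subset hsub

/-- `G b = ∑_{t < b} (3 + 2 ⌊t / 2⌋)`. -/
def G : ℕ → ℕ
  | 0 => 0
  | b + 1 => G b + (3 + 2 * (b / 2))

lemma G_mono {a b : ℕ} (h : a ≤ b) : G a ≤ G b := by
  induction b with
  | zero => have : a = 0 := by omega
            subst this; exact le_refl _
  | succ b ih =>
    rcases Nat.lt_or_ge a (b + 1) with h1 | h1
    · have := ih (by omega)
      simp only [G]; omega
    · have : a = b + 1 := by omega
      subst this; exact le_refl _

lemma G_even (g : ℕ) : G (2 * g) = 2 * g ^ 2 + 4 * g := by
  induction g with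
  | zero => rfl
  | succ g ih =>
    have h1 : 2 * (g + 1) = 2 * g + 1 + 1 := by ring
    rw [h1]
    simp only [G]
    rw [ih]
    have h2 : (2 * g + 1) / 2 = g := by omega
    have h3 : (2 * g) / 2 = g := by omega
    rw [h2, h3]; ring

namespace Std

variable {k : ℕ} {π : List ℕ} {c : ℕ} {cs : List ℕ}

/-- The potential inequality for prefixes. -/
lemma potential (h : Std k π c cs) : ∀ (p : List ℕ) (x a : ℕ) (q : List ℕ),
    π = p ++ x :: a :: q →
    ∃ e, 2 * asc (p ++ [x, a]) + (if a ≤ x then 1 else 0) = p.length + 2 + e ∧
      ∀ y ∈ p ++ [x, a], 2 * y ≤ G (e + X (p ++ [x, a])) + e + 2 := by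
  intro p
  induction p using List.reverseRecOn with
  | nil =>
    intro x a q hp
    simp only [List.nil_append] at hp ⊢
    obtain ⟨t, ht⟩ := h.head_zero
    rw [hp] at ht
    simp only [List.cons.injEq] at ht
    have hx : x = 0 := ht.1
    have ha : a ≤ 1 := by
      have := h.entry_le (p := [x]) (q := q) (x := a) (by simpa using hp) (by simp)
      simpa [asc] using this
    have hxa : x < a := by
      by_contra hcon
      push Not at hcon
      obtain ⟨y, q', _, h2, h3⟩ := h.after_descent (p := []) (q := q) (by simpa using hp) hcon
      omega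
    refine ⟨0, ?_, ?_⟩
    · have h1 : ¬ a ≤ x := by omega
      simp [asc, hxa, h1]
    · intro y hy
      simp only [List.mem_cons, List.not_mem_nil, or_false] at hy
      rcases hy with rfl | rfl <;> omega
  | append_singleton p w ih =>
    intro x a q hp
    have hp' : π = p ++ w :: x :: (a :: q) := by rw [hp]; simp
    obtain ⟨e', he', hb'⟩ := ih w x (a :: q) hp'
    have hlist : p ++ [w] ++ [x, a] = (p ++ [w, x]) ++ [a] := by simp
    have hasc : asc (p ++ [w] ++ [x, a]) = asc (p ++ [w, x]) + (if x < a then 1 else 0) := by
      have := asc_snoc (p ++ [w]) x a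
      simpa using this
    have hX : X (p ++ [w, x]) ≤ X (p ++ [w] ++ [x, a]) := by
      rw [hlist]; exact X_le_append _ _
    have hlen : (p ++ [w]).length = p.length + 1 := by simp
    by_cases hwx : x ≤ w
    · -- the step `w → x` is a non-ascent
      obtain ⟨y, q', hq, h2, h3⟩ := h.after_descent (p := p) (q := a :: q) hp' hwx
      simp only [List.cons.injEq] at hq
      obtain ⟨rfl, _⟩ := hq
      refine ⟨e', ?_, ?_⟩
      · rw [hasc, hlen]
        have h4 : ¬ a ≤ x := by omega
        simp only [hwx, h2, h4, if_true, if_false] at he' ⊢
        omega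
      · intro y hy
        rw [hlist] at hy
        have hmono : G (e' + X (p ++ [w, x])) ≤ G (e' + X (p ++ [w] ++ [x, a])) :=
          G_mono (by omega)
        rcases List.mem_append.mp hy with hy | hy
        · have := hb' y hy; omega
        · simp only [List.mem_singleton] at hy
          subst hy
          have := hb' w (by simp)
          omega
    · -- the step `w → x` is an ascent
      simp only [hwx, if_false, add_zero] at he'
      by_cases hxa : a ≤ x
      · refine ⟨e', ?_, ?_⟩
        · rw [hasc, hlen]
          have h4 : ¬ x < a := by omega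
          simp only [hxa, h4, if_true, if_false]
          omega
        · intro y hy
          rw [hlist] at hy
          have hmono : G (e' + X (p ++ [w, x])) ≤ G (e' + X (p ++ [w] ++ [x, a])) :=
            G_mono (by omega)
          rcases List.mem_append.mp hy with hy | hy
          · have := hb' y hy; omega
          · simp only [List.mem_singleton] at hy
            subst hy
            have := hb' x (by simp)
            omega
      · push Not at hxa
        refine ⟨e' + 1, ?_, ?_⟩
        · rw [hasc, hlen]
          have h4 : ¬ a ≤ x := by omega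
          simp only [hxa, h4, if_true, if_false]
          omega
        · intro y hy
          rw [hlist] at hy
          have hmono : G (e' + 1 + X (p ++ [w, x])) ≤ G (e' + 1 + X (p ++ [w] ++ [x, a])) :=
            G_mono (by omega)
          have hG : G (e' + 1 + X (p ++ [w, x])) =
              G (e' + X (p ++ [w, x])) + (3 + 2 * ((e' + X (p ++ [w, x])) / 2)) := by
            have : e' + 1 + X (p ++ [w, x]) = (e' + X (p ++ [w, x])) + 1 := by ring
            rw [this]; rfl
          rcases List.mem_append.mp hy with hy | hy
          · have := hb' y hy; omega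
          · simp only [List.mem_singleton] at hy
            subst hy
            -- the largest earlier entry
            set τ := p ++ [w, x] with hτ
            obtain ⟨M, hM, hMmax⟩ : ∃ M ∈ τ.toFinset, ∀ z ∈ τ.toFinset, z ≤ M := by
              refine Finset.exists_max_image τ.toFinset (fun z => z) ?_
              exact ⟨x, by simp [hτ]⟩
            have hcard : τ.toFinset.card ≤ M + 1 := by
              calc τ.toFinset.card ≤ (Finset.range (M + 1)).card := by
                    apply Finset.card_le_card
                    intro z hz
                    have := hMmax z hz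
                    exact Finset.mem_range.mpr (by omega)
                _ = M + 1 := Finset.card_range _
            have hle := length_le τ
            have hτlen : τ.length = p.length + 2 := by simp [hτ]
            have hentry : y ≤ 1 + asc τ := by
              refine h.entry_le (p := τ) (q := q) (x := y) ?_ (by simp [hτ])
              rw [hp, hτ]; simp
            have hMb := hb' M (by simpa using hM)
            have hfloor : asc τ ≤ τ.toFinset.card + (e' + X τ) / 2 := by omega
            omega

/-- The main bound. -/
theorem length_bound (h : Std k π c cs) : (π ++ c :: cs).length + k ≤ 2 * k ^ 2 := by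
  have h2 := h.two_le_length
  -- the last two entries
  obtain ⟨p, x, a, hpi⟩ : ∃ p x a, π = p ++ [x, a] := by
    rcases List.eq_nil_or_concat π with h3 | ⟨π', a, h3⟩
    · rw [h3] at h2; simp at h2
    · rcases List.eq_nil_or_concat π' with h4 | ⟨p, x, h4⟩
      · rw [h3, h4] at h2; simp at h2
      · refine ⟨p, x, a, ?_⟩
        rw [h3, h4]; simp
  have hxa : x < a := by
    by_contra hcon
    push Not at hcon
    obtain ⟨y, q', hq, _, _⟩ := h.after_descent (p := p) (q := []) (by simpa using hpi) hcon
    exact absurd hq (by simp)
  obtain ⟨e, he, hb⟩ := h.potential p x a [] (by simpa using hpi)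
  rw [← hpi] at he hb
  have hnax : ¬ a ≤ x := by omega
  simp only [hnax, if_false, add_zero] at he
  have hlen : π.length = p.length + 2 := by rw [hpi]; simp
  rw [← hlen] at he
  -- number of ascents versus number of letters
  have hD := h.asc_dropLast_le (π' := p ++ [x]) (e := a) (by rw [hpi]; simp) (by simp)
  have hascpi : asc π = asc (p ++ [x]) + 1 := by
    rw [hpi, asc_snoc]; simp [hxa]
  set V' := π.toFinset \ cs.toFinset with hV'
  have hcs : cs.toFinset.card ≤ k - 1 := by
    have := h.length_cs
    have h3 := List.toFinset_card_le cs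
    omega
  have hunion : ((p ++ [x]).toFinset ∪ cs.toFinset).card ≤ V'.card + cs.toFinset.card := by
    calc ((p ++ [x]).toFinset ∪ cs.toFinset).card ≤ (V' ∪ cs.toFinset).card := by
          apply Finset.card_le_card
          intro z hz
          simp only [Finset.mem_union, hV', Finset.mem_sdiff, List.mem_toFinset] at hz ⊢
          by_cases hzc : z ∈ cs
          · exact Or.inr hzc
          · left
            refine ⟨?_, hzc⟩
            rcases hz with hz | hz
            · rw [hpi]
              simp only [List.mem_append, List.mem_cons, List.not_mem_nil, or_false] at hz ⊢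
              tauto
            · exact absurd hz hzc
      _ ≤ V'.card + cs.toFinset.card := Finset.card_union_le _ _
  have hk := h.hk
  have hasc_le : asc π + 1 ≤ V'.card + (k - 1) := by omega
  -- the multiplicities
  have hmult : 2 * V'.card + X π ≤ π.length := by
    have h1 : π.length = ∑ z ∈ π.toFinset, π.count z := (List.sum_toFinset_count_eq_length π).symm
    have hsplit : ∀ f : ℕ → ℕ, ∑ z ∈ π.toFinset, f z =
        ∑ z ∈ V', f z + ∑ z ∈ π.toFinset ∩ cs.toFinset, f z := by
      intro f
      rw [hV', ← Finset.sum_sdiff (Finset.inter_subset_left (s₁ := π.toFinset)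
        (s₂ := cs.toFinset)), Finset.sdiff_inter_self_left]
    rw [h1, X, hsplit, hsplit (fun z => π.count z)]
    have h3 : 2 * V'.card = ∑ z ∈ V', 2 := by simp [mul_comm]
    rw [h3, ← add_assoc, ← Finset.sum_add_distrib]
    apply Nat.add_le_add
    · apply Finset.sum_le_sum
      intro z hz
      simp only [hV', Finset.mem_sdiff, List.mem_toFinset] at hz
      have := h.two_le_count hz.1 hz.2
      omega
    · apply Finset.sum_le_sum
      intro z _
      omega
  have hb2 : e + X π ≤ 2 * (k - 2) := by omega
  -- the largest entry
  obtain ⟨M, hM, hMmax⟩ : ∃ M ∈ π.toFinset, ∀ z ∈ π.toFinset, z ≤ M := by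
    refine Finset.exists_max_image π.toFinset (fun z => z) ?_
    exact ⟨x, by simp [hpi]⟩
  have hcard : V'.card ≤ M + 1 := by
    calc V'.card ≤ (Finset.range (M + 1)).card := by
          apply Finset.card_le_card
          intro z hz
          have := hMmax z ((Finset.mem_sdiff.mp hz).1)
          exact Finset.mem_range.mpr (by omega)
      _ = M + 1 := Finset.card_range _
  have hMb := hb M (by simpa using hM)
  have hG : G (e + X π) ≤ G (2 * (k - 2)) := G_mono hb2
  rw [G_even] at hG
  obtain ⟨j, rfl⟩ : ∃ j, k = j + 3 := ⟨k - 3, by omega⟩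
  have hj : j + 3 - 2 = j + 1 := by omega
  rw [hj] at hG
  have hfin : (π ++ c :: cs).length = π.length + (j + 3) := by
    have := h.hlen
    simp only [List.length_append]
    omega
  rw [hfin]
  have hsq : 2 * (j + 3) ^ 2 = 2 * (j + 1) ^ 2 + 8 * (j + 1) + 8 := by ring
  rw [hsq]
  omega

end Std

/-- Every `δ_k`-minimal ascent sequence has length at most `2 k ^ 2 - k`. -/
theorem bound {k : ℕ} (hk : 3 ≤ k) {σ : List ℕ} (h : IsMinimal k σ) :
    σ.length + k ≤ 2 * k ^ 2 := by
  obtain ⟨π, c, cs, hσ, hstd⟩ := exists_std hk h
  rw [hσ]; exact hstd.length_bound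

end Pool.Agent.R543.MinAsc
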