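import Mathlib
import Pool.Agent.R543.MinAsc.Bound

/-!
# The sharper upper bound `(4 k^2 + 3 k - 4) / 3`
-/

namespace Pool.Agent.R543.MinAsc

/-- Number of copies still missing below `m` (two copies of every value are wanted). -/
def Qf (τ : List ℕ) (m : ℕ) : ℕ := ∑ v ∈ Finset.range m, (2 - τ.count v)

lemma Qf_mono (τ : List ℕ) {m m' : ℕ} (h : m ≤ m') : Qf τ m ≤ Qf τ m' := by
  unfold Qf
  exact Finset.sum_le_sum_of_subset (Finset.range_mono h)

lemma count_append_single (τ : List ℕ) (y v : ℕ) :
    (τ ++ [y]).count v = τ.count v + (if y = v then 1 else 0) := by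
  rw [List.count_append]
  by_cases h : y = v
  · subst h; simp
  · simp [h]

lemma Qf_append_ge (τ : List ℕ) {y m : ℕ} (h : m ≤ y) : Qf (τ ++ [y]) m = Qf τ m := by
  unfold Qf
  apply Finset.sum_congr rfl
  intro v hv
  have := Finset.mem_range.mp hv
  rw [count_append_single]
  have h2 : ¬ y = v := by omega
  simp [h2]

lemma Qf_append_small (τ : List ℕ) {y m : ℕ} (h : y < m) (hc : τ.count y ≤ 1) :
    Qf (τ ++ [y]) m + 1 = Qf τ m := by
  unfold Qf
  have hmem : y ∈ Finset.range m := Finset.mem_range.mpr h
  rw [← Finset.add_sum_erase _ _ hmem, ← Finset.add_sum_erase (Finset.range m) _ hmem]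
  have h1 : ∑ v ∈ (Finset.range m).erase y, (2 - (τ ++ [y]).count v) =
      ∑ v ∈ (Finset.range m).erase y, (2 - τ.count v) := by
    apply Finset.sum_congr rfl
    intro v hv
    have := (Finset.mem_erase.mp hv).1
    rw [count_append_single]
    have h2 : ¬ y = v := fun h => this h.symm
    simp [h2]
  rw [h1, count_append_single]
  simp only [if_true]
  omega

lemma Qf_append_big (τ : List ℕ) {y : ℕ} (m : ℕ) (hc : 2 ≤ τ.count y) :
    Qf (τ ++ [y]) m = Qf τ m := by
  unfold Qf
  apply Finset.sum_congr rfl
  intro v hv
  rw [count_append_single]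
  by_cases h : y = v
  · subst h; simp only [if_true]; omega
  · simp [h]

/-- `X` as a sum over an initial segment. -/
lemma X_eq_range (τ : List ℕ) {m : ℕ} (h : ∀ z ∈ τ, z < m) :
    X τ = ∑ v ∈ Finset.range m, (τ.count v - 2) := by
  unfold X
  apply Finset.sum_subset
  · intro z hz
    exact Finset.mem_range.mpr (h z (List.mem_toFinset.mp hz))
  · intro v _ hv
    have : τ.count v = 0 := List.count_eq_zero.mpr (fun h => hv (List.mem_toFinset.mpr h))
    omega

lemma length_eq_range (τ : List ℕ) {m : ℕ} (h : ∀ z ∈ τ, z < m) :
    τ.length = ∑ v ∈ Finset.range m, τ.count v := by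
  rw [← List.sum_toFinset_count_eq_length τ]
  apply Finset.sum_subset
  · intro z hz
    exact Finset.mem_range.mpr (h z (List.mem_toFinset.mp hz))
  · intro v _ hv
    exact List.count_eq_zero.mpr (fun h => hv (List.mem_toFinset.mpr h))

lemma length_identity (τ : List ℕ) {m : ℕ} (h : ∀ z ∈ τ, z < m) :
    τ.length + Qf τ m = 2 * m + X τ := by
  rw [X_eq_range τ h, length_eq_range τ h, Qf]
  have h2 : 2 * m = ∑ v ∈ Finset.range m, 2 := by simp [mul_comm]
  rw [h2, ← Finset.sum_add_distrib, ← Finset.sum_add_distrib]
  apply Finset.sum_congr rfl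
  intro v _
  omega

lemma X_append_small (τ : List ℕ) {y : ℕ} (hc : τ.count y ≤ 1) : X (τ ++ [y]) = X τ := by
  obtain ⟨m, hm⟩ : ∃ m, ∀ z ∈ τ ++ [y], z < m := by
    refine ⟨(τ ++ [y]).sum + 1, ?_⟩
    intro z hz
    have := List.single_le_sum (by simp) z hz
    omega
  have hm' : ∀ z ∈ τ, z < m := fun z hz => hm z (List.mem_append_left _ hz)
  rw [X_eq_range _ hm, X_eq_range _ hm']
  apply Finset.sum_congr rfl
  intro v _
  rw [count_append_single]
  by_cases h : y = v
  · subst h; simp only [if_true]; omega
  · simp [h]

lemma X_append_big (τ : List ℕ) {y : ℕ} (hc : 2 ≤ τ.count y) : X (τ ++ [y]) = X τ + 1 := by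
  obtain ⟨m, hm⟩ : ∃ m, ∀ z ∈ τ ++ [y], z < m := by
    refine ⟨(τ ++ [y]).sum + 1, ?_⟩
    intro z hz
    have := List.single_le_sum (by simp) z hz
    omega
  have hm' : ∀ z ∈ τ, z < m := fun z hz => hm z (List.mem_append_left _ hz)
  rw [X_eq_range _ hm, X_eq_range _ hm']
  have hmem : y ∈ Finset.range m := Finset.mem_range.mpr (hm y (by simp))
  rw [← Finset.add_sum_erase _ _ hmem, ← Finset.add_sum_erase (Finset.range m) _ hmem]
  have h1 : ∑ v ∈ (Finset.range m).erase y, ((τ ++ [y]).count v - 2) =
      ∑ v ∈ (Finset.range m).erase y, (τ.count v - 2) := by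
    apply Finset.sum_congr rfl
    intro v hv
    have := (Finset.mem_erase.mp hv).1
    rw [count_append_single]
    have h2 : ¬ y = v := fun h => this h.symm
    simp [h2]
  rw [h1, count_append_single]
  simp only [if_true]
  omega

lemma Qf_extend (τ : List ℕ) {m m' : ℕ} (h : ∀ z ∈ τ, z < m) (hmm : m ≤ m') :
    Qf τ m' = Qf τ m + 2 * (m' - m) := by
  have h1 := length_identity τ h
  have h2 := length_identity τ (m := m') (fun z hz => lt_of_lt_of_le (h z hz) hmm)
  omega

/-- `W b = 12 + b^2 + 5 b`. -/
def W (b : ℕ) : ℕ := 12 + b ^ 2 + 5 * b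

lemma W_succ (b : ℕ) : W (b + 1) = W b + (2 * b + 6) := by unfold W; ring

namespace Std

variable {k : ℕ} {π : List ℕ} {c : ℕ} {cs : List ℕ}

/-- The sharper potential inequality for prefixes. -/
lemma potential2 (h : Std k π c cs) : ∀ (p : List ℕ) (x a : ℕ) (q : List ℕ),
    π = p ++ x :: a :: q →
    ∃ e nb M, 2 * asc (p ++ [x, a]) + (if a ≤ x then 1 else 0) = p.length + 2 + e ∧
      p.length + 2 ≤ nb + (e + X (p ++ [x, a])) ∧
      M ∈ p ++ [x, a] ∧ (∀ z ∈ p ++ [x, a], z ≤ M) ∧
      Qf (p ++ [x, a]) (M + 1) ≤ e + X (p ++ [x, a]) + 2 ∧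
      3 * nb + 2 * Qf (p ++ [x, a]) (M + 1) +
        (if a ≤ x then 1 + 2 * Qf (p ++ [x, a]) (a + 1) else 2 * Qf (p ++ [x, a]) (x + 1)) ≤
        W (e + X (p ++ [x, a])) := by
  intro p
  induction p using List.reverseRecOn with
  | nil =>
    intro x a q hp
    simp only [List.nil_append] at hp ⊢
    obtain ⟨t, ht⟩ := h.head_zero
    rw [hp] at ht
    simp only [List.cons.injEq] at ht
    have hx : x = 0 := ht.1
    have ha : a ≤ 1 := by
      have := h.entry_le (p := [x]) (q := q) (x := a) (by simpa using hp) (by simp)
      simpa [asc] using this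
    have hxa : x < a := by
      by_contra hcon
      push Not at hcon
      obtain ⟨y, q', _, h2, h3⟩ := h.after_descent (p := []) (q := q) (by simpa using hp) hcon
      omega
    have ha1 : a = 1 := by omega
    subst hx
    subst ha1
    refine ⟨0, 2, 1, by decide, by decide, by decide, by decide, by decide, by decide⟩
  | append_singleton p w ih =>
    intro x a q hp
    have hp' : π = p ++ w :: x :: (a :: q) := by rw [hp]; simp
    obtain ⟨e, nb, M, h1, h2, hMm, hMb, h3, h4⟩ := ih w x (a :: q) hp'
    have hlist : p ++ [w] ++ [x, a] = (p ++ [w, x]) ++ [a] := by simp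
    have hasc : asc (p ++ [w] ++ [x, a]) = asc (p ++ [w, x]) + (if x < a then 1 else 0) := by
      have := asc_snoc (p ++ [w]) x a
      simpa using this
    have hlen : (p ++ [w]).length = p.length + 1 := by simp
    rw [hasc, hlen, hlist]
    set τ := p ++ [w, x] with hτ
    have hτlen : τ.length = p.length + 2 := by simp [hτ]
    have hxM : x ≤ M := hMb x (by simp [hτ])
    have hwM : w ≤ M := hMb w (by simp [hτ])
    have hMb' : ∀ z ∈ τ, z < M + 1 := fun z hz => Nat.lt_succ_of_le (hMb z hz)
    have hid := length_identity τ hMb'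
    have hnew : ∀ z ∈ τ ++ [a], z ≤ max M a := by
      intro z hz
      rcases List.mem_append.mp hz with hz | hz
      · exact le_trans (hMb z hz) (le_max_left _ _)
      · simp only [List.mem_singleton] at hz
        rw [hz]; exact le_max_right _ _
    have hentry : a ≤ 1 + asc τ := by
      refine h.entry_le (p := τ) (q := q) (x := a) ?_ (by simp [hτ])
      rw [hp, hτ]; simp
    have hW1 := W_succ (e + X τ)
    have hW2 := W_succ (e + X τ + 1)
    have hE3 : e + (X τ + 1) = e + X τ + 1 := by ring
    have hQx : Qf τ (x + 1) ≤ Qf τ (M + 1) := Qf_mono τ (by omega)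
    have hQw : Qf τ (w + 1) ≤ Qf τ (M + 1) := Qf_mono τ (by omega)
    by_cases hwx : x ≤ w
    · -- the step `w → x` is a non-ascent
      obtain ⟨y, q', hq, h5, h6⟩ := h.after_descent (p := p) (q := a :: q) hp' hwx
      simp only [List.cons.injEq] at hq
      obtain ⟨rfl, _⟩ := hq
      have hax : ¬ a ≤ x := by omega
      have hmax : max M a = M := by omega
      rw [hmax] at hnew
      have hQa : Qf (τ ++ [a]) (x + 1) = Qf τ (x + 1) := Qf_append_ge τ (by omega)
      simp only [hwx, if_true] at h1 h4
      rcases Nat.lt_or_ge (τ.count a) 2 with hc | hc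
      · have hX := X_append_small τ (y := a) (by omega)
        have hQ := Qf_append_small τ (y := a) (m := M + 1) (by omega) (by omega)
        refine ⟨e, nb + 1, M, ?_, ?_, List.mem_append_left _ hMm, hnew, ?_, ?_⟩
        · simp only [h5, hax, if_true, if_false]; omega
        · rw [hX]; omega
        · rw [hX]; omega
        · rw [hX]; simp only [hax, if_false]; rw [hQa]; omega
      · have hX := X_append_big τ (y := a) hc
        have hQ := Qf_append_big τ (y := a) (M + 1) hc
        refine ⟨e, nb, M, ?_, ?_, List.mem_append_left _ hMm, hnew, ?_, ?_⟩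
        · simp only [h5, hax, if_true, if_false]; omega
        · rw [hX]; omega
        · rw [hX, hQ]; omega
        · rw [hX, hQ]; simp only [hax, if_false]; rw [hQa, hE3, hW1]; omega
    · -- the step `w → x` is an ascent
      simp only [hwx, if_false, add_zero] at h1 h4
      push Not at hwx
      by_cases hxa : a ≤ x
      · -- then `a ≤ w`
        have haw : a ≤ w := by
          rcases h.after_ascent (p := p) (q := q) (x := w) (a := x) (y := a) hp' hwx with h5 | h5
          · omega
          · exact h5
        have hnxa : ¬ x < a := by omega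
        have hmax : max M a = M := by omega
        rw [hmax] at hnew
        have hQaw : Qf τ (a + 1) ≤ Qf τ (w + 1) := Qf_mono τ (by omega)
        rcases Nat.lt_or_ge (τ.count a) 2 with hc | hc
        · have hX := X_append_small τ (y := a) (by omega)
          have hQ := Qf_append_small τ (y := a) (m := M + 1) (by omega) (by omega)
          have hQ' := Qf_append_small τ (y := a) (m := a + 1) (by omega) (by omega)
          refine ⟨e, nb + 1, M, ?_, ?_, List.mem_append_left _ hMm, hnew, ?_, ?_⟩
          · simp only [hnxa, hxa, if_true, if_false]; omega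
          · rw [hX]; omega
          · rw [hX]; omega
          · rw [hX]; simp only [hxa, if_true]; omega
        · have hX := X_append_big τ (y := a) hc
          have hQ := Qf_append_big τ (y := a) (M + 1) hc
          have hQ' := Qf_append_big τ (y := a) (a + 1) hc
          refine ⟨e, nb, M, ?_, ?_, List.mem_append_left _ hMm, hnew, ?_, ?_⟩
          · simp only [hnxa, hxa, if_true, if_false]; omega
          · rw [hX]; omega
          · rw [hX, hQ]; omega
          · rw [hX, hQ]; simp only [hxa, if_true]; rw [hQ', hE3, hW1]; omega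
      · -- two consecutive ascents: an event
        have hxa' : x < a := by omega
        have hQa : Qf (τ ++ [a]) (x + 1) = Qf τ (x + 1) := Qf_append_ge τ (by omega)
        have hE1 : e + 1 + X τ = e + X τ + 1 := by ring
        rcases Nat.lt_or_ge M a with hMa | hMa
        · -- a new maximum
          have hc : τ.count a = 0 := by
            apply List.count_eq_zero.mpr
            intro hmem
            have := hMb a hmem; omega
          have hX := X_append_small τ (y := a) (by omega)
          have hQ := Qf_append_small τ (y := a) (m := a + 1) (by omega) (by omega)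
          have hext := Qf_extend τ (m := M + 1) (m' := a + 1) hMb' (by omega)
          have hmax : max M a = a := by omega
          rw [hmax] at hnew
          refine ⟨e + 1, nb, a, ?_, ?_, by simp, hnew, ?_, ?_⟩
          · simp only [hxa', hxa, if_true, if_false]; omega
          · rw [hX]; omega
          · rw [hX]; omega
          · rw [hX]; simp only [hxa, if_false]; rw [hQa, hE1, hW1]; omega
        · have hmax : max M a = M := by omega
          rw [hmax] at hnew
          rcases Nat.lt_or_ge (τ.count a) 2 with hc | hc
          · have hX := X_append_small τ (y := a) (by omega)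
            have hQ := Qf_append_small τ (y := a) (m := M + 1) (by omega) (by omega)
            refine ⟨e + 1, nb, M, ?_, ?_, List.mem_append_left _ hMm, hnew, ?_, ?_⟩
            · simp only [hxa', hxa, if_true, if_false]; omega
            · rw [hX]; omega
            · rw [hX]; omega
            · rw [hX]; simp only [hxa, if_false]; rw [hQa, hE1, hW1]; omega
          · have hX := X_append_big τ (y := a) hc
            have hQ := Qf_append_big τ (y := a) (M + 1) hc
            refine ⟨e + 1, nb, M, ?_, ?_, List.mem_append_left _ hMm, hnew, ?_, ?_⟩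
            · simp only [hxa', hxa, if_true, if_false]; omega
            · rw [hX]; omega
            · rw [hX, hQ]; omega
            · have hE2 : e + 1 + (X τ + 1) = e + X τ + 1 + 1 := by ring
              rw [hX, hQ]; simp only [hxa, if_false]; rw [hQa, hE2, hW2, hW1]; omega

end Std

end Pool.Agent.R543.MinAsc
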