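import Mathlib
import Pool.Agent.R543.MinAsc.Sharp

/-!
# One step of the potential argument
-/

namespace Pool.Agent.R543.MinAsc

/-- Data attached to a prefix `τ` of `π` ending with `w, x`. -/
structure Inv (τ : List ℕ) (w x e nb M : ℕ) : Prop where
  h1 : 2 * asc τ + (if x ≤ w then 1 else 0) = τ.length + e
  h2 : τ.length ≤ nb + (e + X τ)
  hM : M ∈ τ
  hMb : ∀ z ∈ τ, z ≤ M
  h3 : Qf τ (M + 1) ≤ e + X τ + 2

/-- The potential. -/
def pot (τ : List ℕ) (w x nb M : ℕ) : ℕ :=
  3 * nb + 2 * Qf τ (M + 1) + (if x ≤ w then 1 + 2 * Qf τ (x + 1) else 2 * Qf τ (w + 1))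

/-- Is the new entry `a` a second consecutive ascent? -/
def ev1 (w x a : ℕ) : Prop := w < x ∧ x < a

instance (w x a : ℕ) : Decidable (ev1 w x a) := by unfold ev1; infer_instance

/-- Is the new entry `a` at least a third copy? -/
def ev2 (τ : List ℕ) (a : ℕ) : Prop := 2 ≤ τ.count a

instance (τ : List ℕ) (a : ℕ) : Decidable (ev2 τ a) := by unfold ev2; infer_instance

/-- The local condition on three consecutive entries. -/
def loc (w x a : ℕ) : Prop := (x ≤ w → x < a ∧ a ≤ w) ∧ (w < x → x < a ∨ a ≤ w)

lemma X_append_eq (τ : List ℕ) (a : ℕ) :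
    X (τ ++ [a]) = X τ + (if ev2 τ a then 1 else 0) := by
  by_cases h : ev2 τ a
  · simp only [h, if_true]; exact X_append_big τ h
  · simp only [h, if_false]
    unfold ev2 at h
    rw [X_append_small τ (by omega)]; rfl

namespace Std

variable {k : ℕ} {π : List ℕ} {c : ℕ} {cs : List ℕ}

lemma loc_of_pi (h : Std k π c cs) {p q : List ℕ} {w x a : ℕ}
    (hp : π = p ++ w :: x :: a :: q) : loc w x a := by
  constructor
  · intro hwx
    obtain ⟨y, q', hq, h5, h6⟩ := h.after_descent (p := p) (q := a :: q) hp hwx
    simp only [List.cons.injEq] at hq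
    obtain ⟨rfl, _⟩ := hq
    exact ⟨h5, h6⟩
  · intro hwx
    exact h.after_ascent (p := p) (q := q) hp hwx

lemma step (h : Std k π c cs) {p q : List ℕ} {w x a e nb M : ℕ}
    (hp : π = p ++ w :: x :: a :: q) (hI : Inv (p ++ [w, x]) w x e nb M) :
    Inv (p ++ [w, x] ++ [a]) x a (if ev1 w x a then e + 1 else e)
      (if ev1 w x a ∨ ev2 (p ++ [w, x]) a then nb else nb + 1) (max M a) ∧
    pot (p ++ [w, x] ++ [a]) x a
        (if ev1 w x a ∨ ev2 (p ++ [w, x]) a then nb else nb + 1) (max M a) +
        W (e + X (p ++ [w, x])) ≤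
      pot (p ++ [w, x]) w x nb M +
        W ((if ev1 w x a then e + 1 else e) + X (p ++ [w, x] ++ [a])) := by
  have hloc := h.loc_of_pi hp
  obtain ⟨h1, h2, hMm, hMb, h3⟩ := hI
  have hasc : asc (p ++ [w, x] ++ [a]) = asc (p ++ [w, x]) + (if x < a then 1 else 0) := by
    have := asc_snoc (p ++ [w]) x a
    simpa using this
  set τ := p ++ [w, x] with hτ
  have hlen : (τ ++ [a]).length = τ.length + 1 := by simp
  have hxM : x ≤ M := hMb x (by simp [hτ])
  have hwM : w ≤ M := hMb w (by simp [hτ])
  have hMb' : ∀ z ∈ τ, z < M + 1 := fun z hz => Nat.lt_succ_of_le (hMb z hz)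
  have hid := length_identity τ hMb'
  have hnew : ∀ z ∈ τ ++ [a], z ≤ max M a := by
    intro z hz
    rcases List.mem_append.mp hz with hz | hz
    · exact le_trans (hMb z hz) (le_max_left _ _)
    · simp only [List.mem_singleton] at hz
      rw [hz]; exact le_max_right _ _
  have hentry : a ≤ 1 + asc τ := by
    refine h.entry_le (p := τ) (q := q) (x := a) ?_ (by simp [hτ])
    rw [hp, hτ]; simp
  have hW1 := W_succ (e + X τ)
  have hW2 := W_succ (e + X τ + 1)
  have hE3 : e + (X τ + 1) = e + X τ + 1 := by ring
  have hE1 : e + 1 + X τ = e + X τ + 1 := by ring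
  have hE2 : e + 1 + (X τ + 1) = e + X τ + 1 + 1 := by ring
  have hQx : Qf τ (x + 1) ≤ Qf τ (M + 1) := Qf_mono τ (by omega)
  have hQw : Qf τ (w + 1) ≤ Qf τ (M + 1) := Qf_mono τ (by omega)
  have hmem : M ∈ τ ++ [a] := List.mem_append_left _ hMm
  by_cases hwx : x ≤ w
  · -- the step `w → x` is a non-ascent
    obtain ⟨h5, h6⟩ := hloc.1 hwx
    have hax : ¬ a ≤ x := by omega
    have hmax : max M a = M := by omega
    have hev1 : ¬ ev1 w x a := by unfold ev1; omega
    rw [hmax] at hnew ⊢
    have hQa : Qf (τ ++ [a]) (x + 1) = Qf τ (x + 1) := Qf_append_ge τ (by omega)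
    simp only [hwx, if_true] at h1
    simp only [hev1, false_or, if_false]
    by_cases hc : ev2 τ a
    · have hX := X_append_big τ (y := a) hc
      have hQ := Qf_append_big τ (y := a) (M + 1) hc
      simp only [hc, if_true]
      refine ⟨⟨?_, ?_, hmem, hnew, ?_⟩, ?_⟩
      · rw [hasc]; simp only [h5, hax, if_true, if_false]; omega
      · rw [hX]; omega
      · rw [hX, hQ]; omega
      · unfold pot
        rw [hX, hQ]; simp only [hax, hwx, if_true, if_false]; rw [hQa, hE3, hW1]; omega
    · have hc' : τ.count a ≤ 1 := by unfold ev2 at hc; omega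
      have hX := X_append_small τ (y := a) hc'
      have hQ := Qf_append_small τ (y := a) (m := M + 1) (by omega) hc'
      simp only [hc, if_false]
      refine ⟨⟨?_, ?_, hmem, hnew, ?_⟩, ?_⟩
      · rw [hasc]; simp only [h5, hax, if_true, if_false]; omega
      · rw [hX]; omega
      · rw [hX]; omega
      · unfold pot
        rw [hX]; simp only [hax, hwx, if_true, if_false]; rw [hQa]; omega
  · -- the step `w → x` is an ascent
    simp only [hwx, if_false, add_zero] at h1
    have hwx' : w < x := by omega
    by_cases hxa : a ≤ x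
    · have haw : a ≤ w := by
        rcases hloc.2 hwx' with h5 | h5
        · omega
        · exact h5
      have hnxa : ¬ x < a := by omega
      have hmax : max M a = M := by omega
      have hev1 : ¬ ev1 w x a := by unfold ev1; omega
      rw [hmax] at hnew ⊢
      have hQaw : Qf τ (a + 1) ≤ Qf τ (w + 1) := Qf_mono τ (by omega)
      simp only [hev1, false_or, if_false]
      by_cases hc : ev2 τ a
      · have hX := X_append_big τ (y := a) hc
        have hQ := Qf_append_big τ (y := a) (M + 1) hc
        have hQ' := Qf_append_big τ (y := a) (a + 1) hc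
        simp only [hc, if_true]
        refine ⟨⟨?_, ?_, hmem, hnew, ?_⟩, ?_⟩
        · rw [hasc]; simp only [hnxa, hxa, if_true, if_false]; omega
        · rw [hX]; omega
        · rw [hX, hQ]; omega
        · unfold pot
          rw [hX, hQ]; simp only [hxa, hwx, if_true, if_false]; rw [hQ', hE3, hW1]; omega
      · have hc' : τ.count a ≤ 1 := by unfold ev2 at hc; omega
        have hX := X_append_small τ (y := a) hc'
        have hQ := Qf_append_small τ (y := a) (m := M + 1) (by omega) hc'
        have hQ' := Qf_append_small τ (y := a) (m := a + 1) (by omega) hc'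
        simp only [hc, if_false]
        refine ⟨⟨?_, ?_, hmem, hnew, ?_⟩, ?_⟩
        · rw [hasc]; simp only [hnxa, hxa, if_true, if_false]; omega
        · rw [hX]; omega
        · rw [hX]; omega
        · unfold pot
          rw [hX]; simp only [hxa, hwx, if_true, if_false]; omega
    · -- two consecutive ascents: an event
      have hxa' : x < a := by omega
      have hev1 : ev1 w x a := ⟨hwx', hxa'⟩
      have hQa : Qf (τ ++ [a]) (x + 1) = Qf τ (x + 1) := Qf_append_ge τ (by omega)
      simp only [hev1, true_or, if_true]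
      rcases Nat.lt_or_ge M a with hMa | hMa
      · -- a new maximum
        have hc : τ.count a = 0 := by
          apply List.count_eq_zero.mpr
          intro hmem
          have := hMb a hmem; omega
        have hX := X_append_small τ (y := a) (by omega)
        have hQ := Qf_append_small τ (y := a) (m := a + 1) (by omega) (by omega)
        have hext := Qf_extend τ (m := M + 1) (m' := a + 1) hMb' (by omega)
        have hmax : max M a = a := by omega
        rw [hmax] at hnew ⊢
        refine ⟨⟨?_, ?_, by simp, hnew, ?_⟩, ?_⟩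
        · rw [hasc]; simp only [hxa', hxa, if_true, if_false]; omega
        · rw [hX]; omega
        · rw [hX]; omega
        · unfold pot
          rw [hX]; simp only [hxa, hwx, if_false]; rw [hQa, hE1, hW1]; omega
      · have hmax : max M a = M := by omega
        rw [hmax] at hnew ⊢
        by_cases hc : ev2 τ a
        · have hX := X_append_big τ (y := a) hc
          have hQ := Qf_append_big τ (y := a) (M + 1) hc
          refine ⟨⟨?_, ?_, hmem, hnew, ?_⟩, ?_⟩
          · rw [hasc]; simp only [hxa', hxa, if_true, if_false]; omega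
          · rw [hX]; omega
          · rw [hX, hQ]; omega
          · unfold pot
            rw [hX, hQ]; simp only [hxa, hwx, if_false]; rw [hQa, hE2, hW2, hW1]; omega
        · have hc' : τ.count a ≤ 1 := by unfold ev2 at hc; omega
          have hX := X_append_small τ (y := a) hc'
          have hQ := Qf_append_small τ (y := a) (m := M + 1) (by omega) hc'
          refine ⟨⟨?_, ?_, hmem, hnew, ?_⟩, ?_⟩
          · rw [hasc]; simp only [hxa', hxa, if_true, if_false]; omega
          · rw [hX]; omega
          · rw [hX]; omega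
          · unfold pot
            rw [hX]; simp only [hxa, hwx, if_false]; rw [hQa, hE1, hW1]; omega

end Std

end Pool.Agent.R543.MinAsc
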