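import Mathlib
import Pool.Agent.R543.MinAsc.Step

/-!
# The general bound, and the propagation of the potential to the end of `π`
-/

namespace Pool.Agent.R543.MinAsc

namespace Std

variable {k : ℕ} {π : List ℕ} {c : ℕ} {cs : List ℕ}

/-- The budget at the end of `π`. -/
lemma budget (h : Std k π c cs) {e : ℕ} (he : 2 * asc π = π.length + e) :
    e + X π ≤ 2 * (k - 2) := by
  have h2 := h.two_le_length
  obtain ⟨p, x, a, hpi⟩ : ∃ p x a, π = p ++ [x, a] := by
    rcases List.eq_nil_or_concat π with h3 | ⟨π', a, h3⟩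
    · rw [h3] at h2; simp at h2
    · rcases List.eq_nil_or_concat π' with h4 | ⟨p, x, h4⟩
      · rw [h3, h4] at h2; simp at h2
      · refine ⟨p, x, a, ?_⟩
        rw [h3, h4]; simp
  have hxa : x < a := by
    by_contra hcon
    push Not at hcon
    obtain ⟨y, q', hq, _, _⟩ := h.after_descent (p := p) (q := []) (by simpa using hpi) hcon
    exact absurd hq (by simp)
  have hD := h.asc_dropLast_le (π' := p ++ [x]) (e := a) (by rw [hpi]; simp) (by simp)
  have hascpi : asc π = asc (p ++ [x]) + 1 := by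
    rw [hpi, asc_snoc]; simp [hxa]
  set V' := π.toFinset \ cs.toFinset with hV'
  have hcs : cs.toFinset.card ≤ k - 1 := by
    have := h.length_cs
    have h3 := List.toFinset_card_le cs
    omega
  have hunion : ((p ++ [x]).toFinset ∪ cs.toFinset).card ≤ V'.card + cs.toFinset.card := by
    calc ((p ++ [x]).toFinset ∪ cs.toFinset).card ≤ (V' ∪ cs.toFinset).card := by
          apply Finset.card_le_card
          intro z hz
          simp only [Finset.mem_union, hV', Finset.mem_sdiff, List.mem_toFinset] at hz ⊢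
          by_cases hzc : z ∈ cs
          · exact Or.inr hzc
          · left
            refine ⟨?_, hzc⟩
            rcases hz with hz | hz
            · rw [hpi]
              simp only [List.mem_append, List.mem_cons, List.not_mem_nil, or_false] at hz ⊢
              tauto
            · exact absurd hz hzc
      _ ≤ V'.card + cs.toFinset.card := Finset.card_union_le _ _
  have hk := h.hk
  have hasc_le : asc π + 1 ≤ V'.card + (k - 1) := by omega
  have hmult : 2 * V'.card + X π ≤ π.length := by
    have h1 : π.length = ∑ z ∈ π.toFinset, π.count z := (List.sum_toFinset_count_eq_length π).symm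
    have hsplit : ∀ f : ℕ → ℕ, ∑ z ∈ π.toFinset, f z =
        ∑ z ∈ V', f z + ∑ z ∈ π.toFinset ∩ cs.toFinset, f z := by
      intro f
      rw [hV', ← Finset.sum_sdiff (Finset.inter_subset_left (s₁ := π.toFinset)
        (s₂ := cs.toFinset)), Finset.sdiff_inter_self_left]
    rw [h1, X, hsplit, hsplit (fun z => π.count z)]
    have h3 : 2 * V'.card = ∑ z ∈ V', 2 := by simp [mul_comm]
    rw [h3, ← add_assoc, ← Finset.sum_add_distrib]
    apply Nat.add_le_add
    · apply Finset.sum_le_sum
      intro z hz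
      simp only [hV', Finset.mem_sdiff, List.mem_toFinset] at hz
      have := h.two_le_count hz.1 hz.2
      omega
    · apply Finset.sum_le_sum
      intro z _
      omega
  omega

/-- The last step of `π` is an ascent. -/
lemma last_ascent (h : Std k π c cs) {p : List ℕ} {w x : ℕ} (hp : π = p ++ [w, x]) : w < x := by
  by_contra hcon
  push Not at hcon
  obtain ⟨y, q', hq, _, _⟩ := h.after_descent (p := p) (q := []) (by simpa using hp) hcon
  exact absurd hq (by simp)

/-- Propagation to the end of `π`. -/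
lemma propagate (h : Std k π c cs) : ∀ (q p : List ℕ) (w x e nb M : ℕ),
    π = p ++ w :: x :: q → Inv (p ++ [w, x]) w x e nb M →
    ∃ p' w' x' e' nb' M', π = p' ++ [w', x'] ∧ Inv π w' x' e' nb' M' ∧
      pot π w' x' nb' M' + W (e + X (p ++ [w, x])) ≤ pot (p ++ [w, x]) w x nb M + W (e' + X π) ∧
      e + X (p ++ [w, x]) ≤ e' + X π := by
  intro q
  induction q with
  | nil =>
    intro p w x e nb M hp hI
    refine ⟨p, w, x, e, nb, M, hp, ?_, ?_, ?_⟩
    · rw [hp]; exact hI
    · rw [hp]
    · rw [hp]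
  | cons a q ih =>
    intro p w x e nb M hp hI
    obtain ⟨hI', hpot⟩ := h.step hp hI
    have hp' : π = (p ++ [w]) ++ x :: a :: q := by rw [hp]; simp
    have hlist : (p ++ [w]) ++ [x, a] = p ++ [w, x] ++ [a] := by simp
    have hI'' : Inv ((p ++ [w]) ++ [x, a]) x a (if ev1 w x a then e + 1 else e)
      (if ev1 w x a ∨ ev2 (p ++ [w, x]) a then nb else nb + 1) (max M a) := by
      rw [hlist]; exact hI'
    obtain ⟨p', w', x', e', nb', M', h1, h2, h3, h4⟩ := ih _ _ _ _ _ _ hp' hI''
    rw [hlist] at h3 h4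
    refine ⟨p', w', x', e', nb', M', h1, h2, ?_, ?_⟩
    · omega
    · have h5 := X_le_append (p ++ [w, x]) a
      have h6 : e ≤ (if ev1 w x a then e + 1 else e) := by split_ifs <;> omega
      omega

/-- `π` starts with `0, 1`. -/
lemma starts (h : Std k π c cs) : ∃ q, π = 0 :: 1 :: q := by
  obtain ⟨t, ht⟩ := h.head_zero
  have h2 := h.two_le_length
  cases t with
  | nil => rw [ht] at h2; simp at h2
  | cons a q =>
    have ha : a ≤ 1 := by
      have := h.entry_le (p := [0]) (q := q) (x := a) (by simpa using ht) (by simp)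
      simpa [asc] using this
    have hxa : 0 < a := by
      by_contra hcon
      push Not at hcon
      obtain ⟨y, q', _, h2, h3⟩ := h.after_descent (p := []) (q := q) (by simpa using ht) hcon
      omega
    have ha1 : a = 1 := by omega
    exact ⟨q, by rw [ht, ha1]⟩

lemma inv_base : Inv ([] ++ [0, 1]) 0 1 0 2 1 := by
  refine ⟨by decide, by decide, by decide, by decide, by decide⟩

lemma pot_base : pot ([] ++ [0, 1]) 0 1 2 1 = 12 := by decide

/-- The data at the end of `π`. -/
lemma final_data (h : Std k π c cs) {p q : List ℕ} {w x e nb M : ℕ}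
    (hp : π = p ++ w :: x :: q) (hI : Inv (p ++ [w, x]) w x e nb M) :
    ∃ b nb', π.length ≤ nb' + b ∧ b ≤ 2 * (k - 2) ∧ e + X (p ++ [w, x]) ≤ b ∧
      3 * nb' + W (e + X (p ++ [w, x])) ≤ pot (p ++ [w, x]) w x nb M + W b := by
  obtain ⟨p', w', x', e', nb', M', h1, h2, h3, h4⟩ := h.propagate q p w x e nb M hp hI
  have hlt := h.last_ascent h1
  have hn : ¬ x' ≤ w' := by omega
  have h5 := h2.h1
  simp only [hn, if_false, add_zero] at h5
  refine ⟨e' + X π, nb', h2.h2, h.budget h5, h4, ?_⟩
  have h6 : 3 * nb' ≤ pot π w' x' nb' M' := by unfold pot; omega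
  omega

lemma W_mono {a b : ℕ} (h : a ≤ b) : W a + 3 * a ≤ W b + 3 * b := by
  unfold W
  have : a ^ 2 ≤ b ^ 2 := Nat.pow_le_pow_left h 2
  omega

/-- The sharper general bound. -/
theorem length_bound' (h : Std k π c cs) : 3 * (π ++ c :: cs).length + 4 ≤ 4 * k ^ 2 + 3 * k := by
  obtain ⟨q, hq⟩ := h.starts
  obtain ⟨b, nb', h1, h2, h3, h4⟩ :=
    h.final_data (p := []) (q := q) (w := 0) (x := 1) (e := 0) (nb := 2) (M := 1) hq inv_base
  rw [pot_base] at h4
  have hX : X ([] ++ [0, 1]) = 0 := by decide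
  rw [hX] at h4
  have hW0 : W (0 + 0) = 12 := by decide
  rw [hW0] at h4
  have hWm := W_mono h2
  have hk := h.hk
  obtain ⟨j, rfl⟩ : ∃ j, k = j + 3 := ⟨k - 3, by omega⟩
  have hj : j + 3 - 2 = j + 1 := by omega
  rw [hj] at h2 hWm
  have hWj : W (2 * (j + 1)) = 12 + 4 * (j + 1) ^ 2 + 10 * (j + 1) := by unfold W; ring
  rw [hWj] at hWm
  have hfin : (π ++ c :: cs).length = π.length + (j + 3) := by
    have := h.hlen
    simp only [List.length_append]
    omega
  rw [hfin]
  have hsq : 4 * (j + 3) ^ 2 = 4 * (j + 1) ^ 2 + 16 * (j + 1) + 16 := by ring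
  rw [hsq]
  omega

end Std

/-- Every `δ_k`-minimal ascent sequence has length at most `(4 k ^ 2 + 3 k - 4) / 3`. -/
theorem bound' {k : ℕ} (hk : 3 ≤ k) {σ : List ℕ} (h : IsMinimal k σ) :
    3 * σ.length + 4 ≤ 4 * k ^ 2 + 3 * k := by
  obtain ⟨π, c, cs, hσ, hstd⟩ := exists_std hk h
  rw [hσ]; exact hstd.length_bound'

end Pool.Agent.R543.MinAsc
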