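import Mathlib
import Pool.Agent.R543.MinAsc.Final

/-!
# A verified finite search, used for `k = 4` and `k = 5`
-/

namespace Pool.Agent.R543.MinAsc

/-- Number of copies of `y`. -/
def cnt (y : ℕ) : List ℕ → ℕ
  | [] => 0
  | a :: l => cond (Nat.beq a y) (cnt y l + 1) (cnt y l)

lemma cnt_eq (y : ℕ) (l : List ℕ) : cnt y l = l.count y := by
  induction l with
  | nil => rfl
  | cons a l ih =>
    rw [List.count_cons, cnt, ih]
    by_cases h : a = y
    · subst h; simp
    · have : Nat.beq a y = false := by
        rw [Bool.eq_false_iff]; intro h2; exact h (Nat.eq_of_beq_eq_true h2)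
      simp [this, h]

lemma blt_dec (a b : ℕ) : Nat.blt a b = decide (a < b) := by
  by_cases h : a < b
  · rw [decide_eq_true h]; exact Nat.blt_eq.mpr h
  · rw [decide_eq_false h, Bool.eq_false_iff]; intro h2; exact h (Nat.blt_eq.mp h2)

lemma ble_dec (a b : ℕ) : Nat.ble a b = decide (a ≤ b) := by
  by_cases h : a ≤ b
  · rw [decide_eq_true h]; exact Nat.ble_eq.mpr h
  · rw [decide_eq_false h, Bool.eq_false_iff]; intro h2; exact h (Nat.ble_eq.mp h2)

/-- Computable version of `Qf` for reversed lists. -/
def Qc (r : List ℕ) : ℕ → ℕ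
  | 0 => 0
  | t + 1 => Qc r t + (2 - cnt t r)

lemma Qc_eq (r : List ℕ) (t : ℕ) : Qc r t = Qf r.reverse t := by
  induction t with
  | zero => rfl
  | succ t ih =>
    rw [Qc, ih, Qf, Qf, Finset.sum_range_succ, cnt_eq, List.count_reverse]

/-- Bounded universal quantifier. -/
def allBelow : ℕ → (ℕ → Bool) → Bool
  | 0, _ => true
  | n + 1, f => f n && allBelow n f

lemma allBelow_spec {n : ℕ} {f : ℕ → Bool} (h : allBelow n f = true) : ∀ a < n, f a = true := by
  induction n with
  | zero => intro a ha; omega
  | succ n ih =>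
    rw [allBelow, Bool.and_eq_true] at h
    intro a ha
    rcases Nat.lt_or_ge a n with h1 | h1
    · exact ih h.2 a h1
    · have : a = n := by omega
      subst this; exact h.1

/-- The local test for consecutive entries `w, x, a`. -/
def locb (w x a : ℕ) : Bool :=
  cond (Nat.ble x w) (Nat.blt x a && Nat.ble a w) (Nat.blt x a || Nat.ble a w)

/-- The first event test. -/
def ev1b (w x a : ℕ) : Bool := Nat.blt w x && Nat.blt x a

/-- The search.  `search … = true` certifies that no admissible word extends the reversed word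
`x :: w :: r` by `fuel` entries. -/
def search (B C N3 : ℕ) : ℕ → List ℕ → ℕ → ℕ → ℕ → ℕ → ℕ → ℕ → ℕ → ℕ → Bool
  | 0, _, _, _, _, _, _, _, _, _ => false
  | fuel + 1, r, w, x, A, Xc, e, nb, M, Q =>
    allBelow (A + 2) fun a =>
      cond (locb w x a)
        (let v1 := ev1b w x a
         let v2 := Nat.ble 2 (cnt a (x :: w :: r))
         let e' := cond v1 (e + 1) e
         let X' := cond v2 (Xc + 1) Xc
         cond (Nat.ble (e' + X') B)
          (let nb' := cond (v1 || v2) nb (nb + 1)
           let M' := cond (Nat.ble M a) a M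
           let r' := a :: x :: w :: r
           let Q' := cond v2 Q (cond (Nat.ble a M) (Q - 1) (Q + 2 * (a - M) - 1))
           cond (Nat.ble (W (e' + X') + N3)
              (3 * nb' + 2 * Q' +
                cond (Nat.ble a x) (1 + 2 * Qc r' (a + 1)) (2 * Qc r' (x + 1)) + C))
            (search B C N3 fuel (w :: r) x a (cond (Nat.blt x a) (A + 1) A) X' e' nb' M' Q')
            true)
          true)
        true

lemma Q_update (τ : List ℕ) {M a : ℕ} (hMb : ∀ z ∈ τ, z ≤ M) :
    Qf (τ ++ [a]) (max M a + 1) =
      (if ev2 τ a then Qf τ (M + 1) else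
        if a ≤ M then Qf τ (M + 1) - 1 else Qf τ (M + 1) + 2 * (a - M) - 1) := by
  by_cases h : ev2 τ a
  · have hmem : a ∈ τ := by
      apply List.count_pos_iff.mp
      unfold ev2 at h; omega
    have := hMb a hmem
    have hmax : max M a = M := by omega
    rw [hmax]; simp only [h, if_true]
    exact Qf_append_big τ (M + 1) h
  · have hc : τ.count a ≤ 1 := by unfold ev2 at h; omega
    simp only [h, if_false]
    by_cases h2 : a ≤ M
    · have hmax : max M a = M := by omega
      rw [hmax]; simp only [h2, if_true]
      have := Qf_append_small τ (y := a) (m := M + 1) (by omega) hc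
      omega
    · have hmax : max M a = a := by omega
      rw [hmax]; simp only [h2, if_false]
      have h3 := Qf_append_small τ (y := a) (m := a + 1) (by omega) hc
      have h4 := Qf_extend τ (m := M + 1) (m' := a + 1)
        (fun z hz => Nat.lt_succ_of_le (hMb z hz)) (by omega)
      omega

namespace Std

variable {k : ℕ} {π : List ℕ} {c : ℕ} {cs : List ℕ}

lemma search_sound (h : Std k π c cs) {N3 : ℕ} (hN : N3 ≤ 3 * π.length) :
    ∀ (fuel : ℕ) (p q : List ℕ) (w x e nb M : ℕ),
      π = p ++ w :: x :: q → fuel ≤ q.length → Inv (p ++ [w, x]) w x e nb M →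
      search (2 * (k - 2)) (W (2 * (k - 2)) + 3 * (2 * (k - 2))) N3 fuel p.reverse w x
        (asc (p ++ [w, x])) (X (p ++ [w, x])) e nb M (Qf (p ++ [w, x]) (M + 1)) = true → False := by
  intro fuel
  induction fuel with
  | zero =>
    intro p q w x e nb M _ _ _ hs
    simp [search] at hs
  | succ fuel ih =>
    intro p q w x e nb M hp hq hI hs
    cases q with
    | nil => simp at hq
    | cons a q =>
      have hloc := h.loc_of_pi hp
      obtain ⟨hI', hpot⟩ := h.step hp hI
      have hp' : π = (p ++ [w]) ++ x :: a :: q := by rw [hp]; simp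
      have hlist : (p ++ [w]) ++ [x, a] = p ++ [w, x] ++ [a] := by simp
      have hasc : asc (p ++ [w, x] ++ [a]) = asc (p ++ [w, x]) + (if x < a then 1 else 0) := by
        have := asc_snoc (p ++ [w]) x a
        simpa using this
      have hentry : a ≤ 1 + asc (p ++ [w, x]) := by
        refine h.entry_le (p := p ++ [w, x]) (q := q) (x := a) ?_ (by simp)
        rw [hp]; simp
      rw [search] at hs
      have hs' := allBelow_spec hs a (by omega)
      have hlocb : locb w x a = true := by
        unfold locb
        by_cases hwx : x ≤ w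
        · have h1 := hloc.1 hwx
          have h2 : Nat.ble x w = true := Nat.ble_eq.mpr hwx
          rw [h2]
          simp only [cond_true, Bool.and_eq_true, Nat.blt_eq, Nat.ble_eq]
          exact h1
        · have h1 := hloc.2 (by omega)
          have h2 : Nat.ble x w = false := by
            rw [Bool.eq_false_iff]; intro h3; exact hwx (Nat.ble_eq.mp h3)
          rw [h2]
          simp only [cond_false, Bool.or_eq_true, Nat.blt_eq, Nat.ble_eq]
          exact h1
      simp only [hlocb, cond_true] at hs'
      have hcount : cnt a (x :: w :: p.reverse) = (p ++ [w, x]).count a := by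
        rw [cnt_eq]
        have : (x :: w :: p.reverse) = (p ++ [w, x]).reverse := by simp
        rw [this, List.count_reverse]
      have hv1 : ev1b w x a = decide (ev1 w x a) := by
        unfold ev1b ev1
        rw [blt_dec, blt_dec]
        by_cases h1 : w < x <;> by_cases h2 : x < a <;> simp [h1, h2]
      have hv2 : Nat.ble 2 (cnt a (x :: w :: p.reverse)) = decide (ev2 (p ++ [w, x]) a) := by
        rw [hcount]
        unfold ev2
        by_cases h1 : 2 ≤ (p ++ [w, x]).count a
        · rw [decide_eq_true h1]; exact Nat.ble_eq.mpr h1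
        · rw [decide_eq_false h1, Bool.eq_false_iff]
          intro h3; exact h1 (Nat.ble_eq.mp h3)
      have he' : cond (ev1b w x a) (e + 1) e = (if ev1 w x a then e + 1 else e) := by
        rw [hv1]; by_cases h1 : ev1 w x a <;> simp [h1]
      have hX' : cond (Nat.ble 2 (cnt a (x :: w :: p.reverse))) (X (p ++ [w, x]) + 1)
          (X (p ++ [w, x])) = X (p ++ [w, x] ++ [a]) := by
        rw [hv2, X_append_eq]
        by_cases h1 : ev2 (p ++ [w, x]) a <;> simp [h1]
      have hnb' : cond (ev1b w x a || Nat.ble 2 (cnt a (x :: w :: p.reverse))) nb (nb + 1) =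
          (if ev1 w x a ∨ ev2 (p ++ [w, x]) a then nb else nb + 1) := by
        rw [hv1, hv2]
        by_cases h1 : ev1 w x a <;> by_cases h2 : ev2 (p ++ [w, x]) a <;> simp [h1, h2]
      have hM' : cond (Nat.ble M a) a M = max M a := by
        by_cases h1 : M ≤ a
        · rw [Nat.ble_eq.mpr h1]; simp [h1]
        · have : Nat.ble M a = false := by
            rw [Bool.eq_false_iff]; intro h3; exact h1 (Nat.ble_eq.mp h3)
          rw [this]; simp only [cond_false]; omega
      have hA' : cond (Nat.blt x a) (asc (p ++ [w, x]) + 1) (asc (p ++ [w, x])) =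
          asc (p ++ [w, x] ++ [a]) := by
        rw [hasc, blt_dec]
        by_cases h1 : x < a <;> simp [h1]
      have hQ' : cond (Nat.ble 2 (cnt a (x :: w :: p.reverse))) (Qf (p ++ [w, x]) (M + 1))
          (cond (Nat.ble a M) (Qf (p ++ [w, x]) (M + 1) - 1)
            (Qf (p ++ [w, x]) (M + 1) + 2 * (a - M) - 1)) =
          Qf (p ++ [w, x] ++ [a]) (max M a + 1) := by
        rw [Q_update _ hI.hMb, hv2, ble_dec]
        by_cases h1 : ev2 (p ++ [w, x]) a <;> by_cases h2 : a ≤ M <;> simp [h1, h2]
      rw [hQ', he', hX', hnb', hM', hA'] at hs'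
      -- the pruning tests pass
      have hI'' : Inv ((p ++ [w]) ++ [x, a]) x a (if ev1 w x a then e + 1 else e)
        (if ev1 w x a ∨ ev2 (p ++ [w, x]) a then nb else nb + 1) (max M a) := by
        rw [hlist]; exact hI'
      obtain ⟨b, nbf, h1, h2, h3, h4⟩ := h.final_data hp' hI''
      rw [hlist] at h3 h4
      have hWb := W_mono h2
      have hrev : (a :: x :: w :: p.reverse).reverse = p ++ [w, x] ++ [a] := by simp
      have hpotc : 3 * (if ev1 w x a ∨ ev2 (p ++ [w, x]) a then nb else nb + 1) +
          2 * Qf (p ++ [w, x] ++ [a]) (max M a + 1) +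
            cond (Nat.ble a x) (1 + 2 * Qc (a :: x :: w :: p.reverse) (a + 1))
              (2 * Qc (a :: x :: w :: p.reverse) (x + 1)) =
          pot (p ++ [w, x] ++ [a]) x a
            (if ev1 w x a ∨ ev2 (p ++ [w, x]) a then nb else nb + 1) (max M a) := by
        unfold pot
        rw [Qc_eq, Qc_eq, hrev]
        by_cases h5 : a ≤ x
        · rw [Nat.ble_eq.mpr h5]; simp [h5]
        · have : Nat.ble a x = false := by
            rw [Bool.eq_false_iff]; intro h6; exact h5 (Nat.ble_eq.mp h6)
          rw [this]; simp [h5]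
      rw [hpotc] at hs'
      have ht1 : Nat.ble ((if ev1 w x a then e + 1 else e) + X (p ++ [w, x] ++ [a]))
          (2 * (k - 2)) = true := Nat.ble_eq.mpr (by omega)
      have ht2 : Nat.ble (W ((if ev1 w x a then e + 1 else e) + X (p ++ [w, x] ++ [a])) + N3)
          (pot (p ++ [w, x] ++ [a]) x a
            (if ev1 w x a ∨ ev2 (p ++ [w, x]) a then nb else nb + 1) (max M a) +
            (W (2 * (k - 2)) + 3 * (2 * (k - 2)))) = true := Nat.ble_eq.mpr (by omega)
      simp only [ht1, ht2, cond_true] at hs'
      refine ih (p ++ [w]) q x a _ _ _ hp' (by simpa using hq) hI'' ?_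
      rw [hlist]
      simpa using hs'

/-- If the search from `0, 1` succeeds, then `π` is short. -/
theorem length_lt_of_search (h : Std k π c cs) (N : ℕ)
    (hs : search (2 * (k - 2)) (W (2 * (k - 2)) + 3 * (2 * (k - 2))) (3 * N) (N - 2) [] 0 1 1 0 0
      2 1 2 = true) : π.length < N := by
  by_contra hcon
  push Not at hcon
  obtain ⟨q, hq⟩ := h.starts
  refine h.search_sound (N3 := 3 * N) (by omega) (N - 2) [] q 0 1 0 2 1 hq ?_ inv_base ?_
  · have : π.length = q.length + 2 := by rw [hq]; simp
    omega
  · have h1 : asc ([] ++ [0, 1]) = 1 := by decide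
    have h2 : X ([] ++ [0, 1]) = 0 := by decide
    have h3 : Qf ([] ++ [0, 1]) (1 + 1) = 2 := by decide
    rw [h1, h2, h3]
    simpa using hs

end Std

end Pool.Agent.R543.MinAsc
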