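import Mathlib
import Pool.Agent.R543.MinAsc.Search

/-!
# The conjectured value is an upper bound for `k = 3, 4, 5`
-/

namespace Pool.Agent.R543.MinAsc

set_option maxRecDepth 100000

/-- Search certificate for `k = 4`. -/
lemma search_four : search (2 * (4 - 2)) (W (2 * (4 - 2)) + 3 * (2 * (4 - 2))) (3 * 19) (19 - 2)
    [] 0 1 1 0 0 2 1 2 = true := by decide +kernel

/-- Search certificate for `k = 5`. -/
lemma search_five : search (2 * (5 - 2)) (W (2 * (5 - 2)) + 3 * (2 * (5 - 2))) (3 * 29) (29 - 2)
    [] 0 1 1 0 0 2 1 2 = true := by decide +kernel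

/-- For `k = 3, 4, 5` every `δ_k`-minimal ascent sequence has length at most `k^2 + 2k - 2`. -/
theorem bound_small {k : ℕ} (hk : 3 ≤ k) (hk5 : k ≤ 5) {σ : List ℕ} (h : IsMinimal k σ) :
    σ.length ≤ k ^ 2 + 2 * k - 2 := by
  rcases Nat.lt_or_ge k 4 with h4 | h4
  · have : k = 3 := by omega
    subst this
    have := bound' (le_refl 3) h
    omega
  · obtain ⟨π, c, cs, rfl, hs⟩ := exists_std hk h
    have hlen := hs.hlen
    rcases Nat.lt_or_ge k 5 with h5 | h5
    · have : k = 4 := by omega
      subst this
      have h1 := hs.length_lt_of_search 19 search_four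
      simp only [List.length_append, List.length_cons] at hlen ⊢
      omega
    · have : k = 5 := by omega
      subst this
      have h1 := hs.length_lt_of_search 29 search_five
      simp only [List.length_append, List.length_cons] at hlen ⊢
      omega

end Pool.Agent.R543.MinAsc
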